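import Pool.Agent.Q28.AR.Form
import Pool.Agent.Y771.GL.MF

/-!
# The Artin L-function as a product of L-functions of newforms
-/

set_option autoImplicit false

namespace Pool.Agent.Q28.AR

open UpperHalfPlane hiding I
open MatrixGroups CongruenceSubgroup Filter Topology Complex
open Pool.Agent.Y671.GL
open scoped ComplexConjugate NumberField

section one

variable {N : ℕ} [NeZero N] {ψ : DirichletCharacter ℂ N}
  {f : CuspForm (Gamma1 N : Subgroup (GL (Fin 2) ℝ)) 1}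

/-- the Euler product -/
theorem euler_one (hf : IsNewform N ψ f) (hs : Split ψ f) {F : ℂ → ℂ} (hF : IsL (a f) F) {s : ℂ} (hs1 : 1 < s.re) :
    HasProd (fun p : Nat.Primes => (1 - a f p * ((p : ℕ) : ℂ) ^ (-s) +
      ψ ((p : ℕ) : ZMod N) * (((p : ℕ) : ℂ) ^ (-s)) ^ 2)⁻¹) (F s) := by
  obtain ⟨-, -, -, h4⟩ := Pool.Agent.Y771.GL.mf 1 N _ _ (frm hf hs)
  have hsum : Summable (fun n : ℕ => ‖a f n * (n : ℂ) ^ (-s)‖) := by
    refine (h4 s.re hs1).1.of_nonneg_of_le (fun n => norm_nonneg _) fun n => ?_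
    rcases Nat.eq_zero_or_pos n with rfl | hn
    · rw [a_zero]
      simp
    · rw [norm_mul, Complex.norm_natCast_cpow_of_pos hn, neg_re]
  have hmul : ∀ {m n : ℕ}, Nat.Coprime m n → a f (m * n) * ((m * n : ℕ) : ℂ) ^ (-s) =
      a f m * (m : ℂ) ^ (-s) * (a f n * (n : ℂ) ^ (-s)) := by
    intro m n hmn
    rw [hf.mul m n hmn, Nat.cast_mul, Complex.natCast_mul_natCast_cpow]
    ring
  have h := EulerProduct.eulerProduct_hasProd (f := fun n : ℕ => a f n * (n : ℂ) ^ (-s))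
    (by rw [hf.one]; simp) hmul hsum (by rw [a_zero]; simp)
  rw [← hF.ser s hs1] at h
  refine h.congr_fun fun p => ?_
  have hp := p.2
  obtain ⟨x, hx⟩ : ∃ x : ℂ, x = ((p : ℕ) : ℂ) ^ (-s) := ⟨_, rfl⟩
  have hb : ∀ e : ℕ, a f ((p : ℕ) ^ e) * (((p : ℕ) ^ e : ℕ) : ℂ) ^ (-s) = a f ((p : ℕ) ^ e) * x ^ e := by
    intro e
    congr 1
    rw [hx, Nat.cast_pow, ← Complex.natCast_cpow_natCast_mul, mul_comm, ← Complex.cpow_nat_mul, mul_comm]
  have hsm : Summable (fun e : ℕ => a f ((p : ℕ) ^ e) * x ^ e) := by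
    have h1 : Summable (fun n : ℕ => a f n * (n : ℂ) ^ (-s)) := hsum.of_norm
    have h2 := h1.comp_injective (Nat.pow_right_injective hp.two_le)
    refine h2.congr fun e => ?_
    exact hb e
  have hsm1 : Summable (fun e : ℕ => a f ((p : ℕ) ^ (e + 1)) * x ^ (e + 1)) := (summable_nat_add_iff 1).2 hsm
  obtain ⟨S, hS⟩ : ∃ S : ℂ, S = ∑' e : ℕ, a f ((p : ℕ) ^ e) * x ^ e := ⟨_, rfl⟩
  have e1 : S = 1 + ∑' e : ℕ, a f ((p : ℕ) ^ (e + 1)) * x ^ (e + 1) := by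
    rw [hS, hsm.tsum_eq_zero_add, pow_zero, hf.one, pow_zero, mul_one]
  have e2 : ∑' e : ℕ, a f ((p : ℕ) ^ (e + 1)) * x ^ (e + 1) = a f p * x + ∑' e : ℕ, a f ((p : ℕ) ^ (e + 2)) * x ^ (e + 2) := by
    rw [hsm1.tsum_eq_zero_add, zero_add, pow_one, pow_one]
  have e3 : ∑' e : ℕ, a f ((p : ℕ) ^ (e + 2)) * x ^ (e + 2) =
      a f p * x * (∑' e : ℕ, a f ((p : ℕ) ^ (e + 1)) * x ^ (e + 1)) - ψ ((p : ℕ) : ZMod N) * x ^ 2 * S := by
    rw [hS, ← tsum_mul_left, ← tsum_mul_left, ← Summable.tsum_sub (hsm1.mul_left _) (hsm.mul_left _)]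
    refine tsum_congr fun e => ?_
    rw [hf.pow p e hp]
    ring
  have e4 : S * (1 - a f p * x + ψ ((p : ℕ) : ZMod N) * x ^ 2) = 1 := by
    have e5 : ∑' e : ℕ, a f ((p : ℕ) ^ (e + 1)) * x ^ (e + 1) = S - 1 := by rw [e1]; ring
    rw [e5] at e3 e2
    rw [e3] at e2
    linear_combination e2
  have e6 : ∑' e : ℕ, a f ((p : ℕ) ^ e) * (((p : ℕ) ^ e : ℕ) : ℂ) ^ (-s) = S := by
    rw [hS]
    exact tsum_congr hb
  rw [← hx, e6]
  exact (eq_inv_of_mul_eq_one_left e4).symm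

end one

/-- entire functions which agree for `Re s > 1` -/
theorem entire_unique {L L' : ℂ → ℂ} (h : Differentiable ℂ L) (h' : Differentiable ℂ L')
    (he : ∀ s : ℂ, 1 < s.re → L' s = L s) : L' = L := by
  have hev : L' =ᶠ[𝓝 (2 : ℂ)] L := by
    have hopen : IsOpen {s : ℂ | 1 < s.re} := isOpen_lt continuous_const Complex.continuous_re
    filter_upwards [hopen.mem_nhds (show (2 : ℂ) ∈ {s : ℂ | 1 < s.re} by simp)] with s hs
    exact he s hs
  exact AnalyticOnNhd.eq_of_eventuallyEq (fun z _ => h'.analyticAt z) (fun z _ => h.analyticAt z) hev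

section fam

variable {m : ℕ} {N : Fin m → ℕ} [∀ i, NeZero (N i)] {ψ : (i : Fin m) → DirichletCharacter ℂ (N i)}
  {f : (i : Fin m) → CuspForm (Gamma1 (N i) : Subgroup (GL (Fin 2) ℝ)) 1}
variable {K : Type} [Field K] [NumberField K] [IsGalois ℚ K] {V : Type} [AddCommGroup V] [Module ℂ V]
  {ρ : Representation ℂ (K ≃ₐ[ℚ] K) V}

omit [∀ i, NeZero (N i)] in
theorem split_of [FiniteDimensional ℂ V] (hρ : Attached ψ f ρ) (i : Fin m) : Split (ψ i) (f i) :=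
  fun _ hp => a_split hρ i hp

/-- **the Artin L-function** -/
theorem artinL_of [FiniteDimensional ℂ V] (hf : ∀ i, IsNewform (N i) (ψ i) (f i)) (hρ : Attached ψ f ρ)
    {F : Fin m → ℂ → ℂ} (hF : ∀ i, IsL (a (f i)) (F i)) : IsArtinL ρ (fun s => ∏ i, F i s) := by
  refine ⟨Differentiable.fun_finsetProd (𝕜 := ℂ) (u := Finset.univ) (f := F) fun i _ => (hF i).diff, ?_⟩
  intro P σ hσ s hs
  have h : HasProd (fun p : Nat.Primes => ∏ i, (1 - a (f i) p * ((p : ℕ) : ℂ) ^ (-s) +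
      ψ i ((p : ℕ) : ZMod (N i)) * (((p : ℕ) : ℂ) ^ (-s)) ^ 2)⁻¹) (∏ i, F i s) :=
    hasProd_prod fun i _ => euler_one (hf i) (split_of hρ i) (hF i) hs
  refine h.congr_fun fun p => ?_
  rw [hρ p p.2 (P p) (σ p) (hσ p), Finset.prod_inv_distrib]

omit [∀ i, NeZero (N i)] in
theorem artinL_unique {L L' : ℂ → ℂ} (h : IsArtinL ρ L) (h' : IsArtinL ρ L') : L' = L := by
  have hex : ∀ p : Nat.Primes, ∃ (P : Ideal (𝓞 K)) (σ : K ≃ₐ[ℚ] K), IsFrob p P σ := fun p => exists_frob K p.2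
  choose P σ hσ using hex
  exact entire_unique h.1 h'.1 fun s hs => (h'.2 P σ hσ s hs).unique (h.2 P σ hσ s hs)

end fam

end Pool.Agent.Q28.AR
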