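import Mathlib

/-!
# Newforms of weight one and odd two-dimensional Artin representations: definitions

The definitions are those of the starting file `MP_873b76_nt.OddArtin6725` (without the twist).
-/

open UpperHalfPlane MatrixGroups CongruenceSubgroup NumberField

namespace Pool.Agent.Q28.AR

/-- The `n`-th Fourier coefficient `a(n)` of `f(τ) = ∑ a(n) e^(2πinτ)`. -/
noncomputable def a {N : ℕ} (f : CuspForm (Gamma1 N : Subgroup (GL (Fin 2) ℝ)) 1) (n : ℕ) :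
    ℂ := (qExpansion 1 f).coeff n

/-- `f` is a newform of weight one, level `N`, nebentypus `ψ`; the properties that are used:
`f(γτ) = ψ(d) (cτ+d) f(τ)` for `γ = (a b; c d)` in `Γ₀(N)`, `a(1) = 1`, the Hecke relations
`a(mn) = a(m) a(n)` for coprime `m`, `n` and `a(p^(j+2)) = a(p) a(p^(j+1)) - ψ(p) a(p^j)`,
`conj a(n) = conj ψ(n) a(n)` for `n` prime to `N`, and the Fricke involution maps `f` to a multiple
of the form with the conjugate coefficients,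
`f(-1/(Nτ)) = η (√N τ/i) conj (f(-conj τ))` with `|η| = 1`. -/
structure IsNewform (N : ℕ) (ψ : DirichletCharacter ℂ N)
    (f : CuspForm (Gamma1 N : Subgroup (GL (Fin 2) ℝ)) 1) : Prop where
  neb : ∀ γ : SL(2, ℤ), γ ∈ Gamma0 N → ∀ τ : ℍ,
    f (γ • τ) = ψ ((γ 1 1 : ℤ) : ZMod N) * denom γ τ * f τ
  one : a f 1 = 1
  mul : ∀ m n : ℕ, Nat.Coprime m n → a f (m * n) = a f m * a f n
  pow : ∀ p j : ℕ, p.Prime → a f (p ^ (j + 2)) = a f p * a f (p ^ (j + 1)) -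
    ψ (p : ZMod N) * a f (p ^ j)
  conj : ∀ n : ℕ, Nat.Coprime n N → (starRingEnd ℂ) (a f n) =
    (starRingEnd ℂ) (ψ (n : ZMod N)) * a f n
  fricke : ∃ η : ℂ, ‖η‖ = 1 ∧ ∀ τ τ' τc : ℍ, (τ' : ℂ) * ((N : ℂ) * (τ : ℂ)) = -1 →
    (τc : ℂ) = -(starRingEnd ℂ) (τ : ℂ) →
    f τ' = η * (((Real.sqrt N : ℝ) : ℂ) * (τ : ℂ) / Complex.I) * (starRingEnd ℂ) (f τc)

section artin

variable {K : Type} [Field K] [NumberField K] {V : Type} [AddCommGroup V] [Module ℂ V]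

/-- The inertia group of the prime ideal `P` of the ring of integers of `K` in `Gal(K/ℚ)`. -/
def inertia (P : Ideal (𝓞 K)) : Set (K ≃ₐ[ℚ] K) :=
  {τ | ∀ x y : 𝓞 K, (y : K) = τ (x : K) → y - x ∈ P}

/-- `σ` is a Frobenius element at the prime ideal `P` above `p`: `σ x ≡ x^p mod P`. -/
def IsFrob (p : ℕ) (P : Ideal (𝓞 K)) (σ : K ≃ₐ[ℚ] K) : Prop :=
  P.IsPrime ∧ (p : 𝓞 K) ∈ P ∧ ∀ x y : 𝓞 K, (y : K) = σ (x : K) → y - x ^ p ∈ P

/-- The projection of `V` onto the subspace of the vectors fixed by the inertia group of `P`: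
the average of `ρ τ` over the inertia group. -/
noncomputable def invProj (ρ : Representation ℂ (K ≃ₐ[ℚ] K) V) (P : Ideal (𝓞 K)) : V →ₗ[ℂ] V :=
  ((inertia P).ncard : ℂ)⁻¹ • ∑ᶠ τ ∈ inertia P, ρ τ

/-- `det(1 - x ρ(σ) | V^I)`, where `I` is the inertia group of `P`. -/
noncomputable def eulerPoly (ρ : Representation ℂ (K ≃ₐ[ℚ] K) V) (P : Ideal (𝓞 K))
    (σ : K ≃ₐ[ℚ] K) (x : ℂ) : ℂ :=
  LinearMap.det (LinearMap.id - x • (ρ σ ∘ₗ invProj ρ P))

/-- `ρ` is attached to the newforms `f i`: the Artin L-function of `ρ` is the product of the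
L-functions of the `f i`, that is, for every prime `p` the Euler factor of `ρ` at `p` is the inverse of
the product over `i` of `1 - a_i(p) p^(-s) + ψ_i(p) p^(-2s)`. -/
def Attached {m : ℕ} {N : Fin m → ℕ} (ψ : (i : Fin m) → DirichletCharacter ℂ (N i))
    (f : (i : Fin m) → CuspForm (Gamma1 (N i) : Subgroup (GL (Fin 2) ℝ)) 1)
    (ρ : Representation ℂ (K ≃ₐ[ℚ] K) V) : Prop :=
  ∀ p : ℕ, p.Prime → ∀ (P : Ideal (𝓞 K)) (σ : K ≃ₐ[ℚ] K), IsFrob p P σ →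
    ∀ x : ℂ, eulerPoly ρ P σ x = ∏ i, (1 - a (f i) p * x + ψ i (p : ZMod (N i)) * x ^ 2)

/-- `F` is the Artin L-function `L(s, ρ)`, and it is entire: for `Re s > 1` it is the product of
`det(1 - p^(-s) ρ(Frob_p) | V^(I_p))⁻¹` over all primes `p` (for every choice of the Frobenius
elements). -/
def IsArtinL (ρ : Representation ℂ (K ≃ₐ[ℚ] K) V) (F : ℂ → ℂ) : Prop :=
  Differentiable ℂ F ∧ ∀ (P : Nat.Primes → Ideal (𝓞 K)) (σ : Nat.Primes → (K ≃ₐ[ℚ] K)),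
    (∀ p : Nat.Primes, IsFrob p (P p) (σ p)) → ∀ s : ℂ, 1 < s.re →
      HasProd (fun p : Nat.Primes => (eulerPoly ρ (P p) (σ p) (((p : ℕ) : ℂ) ^ (-s)))⁻¹) (F s)

end artin

/-- `Λ` is the completed L-function: it is entire and `Λ(s) = A^(s/2) ((2π)^(-s) Γ(s))^m L(s)` for
`Re s > 1`, where `A` is the product of the levels `N i` (the Artin conductor of `ρ`) and `2 m` the
dimension of `ρ`. -/
def IsCompleted {m : ℕ} (N : Fin m → ℕ) (L Λ : ℂ → ℂ) : Prop :=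
  Differentiable ℂ Λ ∧ ∀ s : ℂ, 1 < s.re → Λ s = ((∏ i, N i : ℕ) : ℂ) ^ (s / 2) *
    ((2 * Real.pi : ℂ) ^ (-s) * Complex.Gamma s) ^ m * L s

end Pool.Agent.Q28.AR
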