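import Pool.Agent.Q28.AR.Ld
import Pool.Agent.Q28.AR.Art
import Pool.Agent.Q9.RH.Tw

/-!
# Density theorem for the zeros of Artin L-functions attached to newforms of weight one
-/

set_option autoImplicit false

namespace Pool.Agent.Q28.AR

open UpperHalfPlane hiding I
open MatrixGroups CongruenceSubgroup Filter Topology Complex
open Pool.Agent.Y671.GL
open Pool.Agent.Y24.GL (LFn Mol ZF)
open scoped ComplexConjugate NumberField

/-! ### the conjugate L-function -/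

theorem GG_conj (N : ℝ) (hN : 0 ≤ N) (s : ℂ) : W388.GG 1 N 1 (conj s) = conj (W388.GG 1 N 1 s) := by
  unfold W388.GG
  have hb : (0 : ℝ) ≤ Real.sqrt N * 1 / (2 * Real.pi) := by positivity
  have harg : ((Real.sqrt N * 1 / (2 * Real.pi) : ℝ) : ℂ).arg ≠ Real.pi := by
    rw [Complex.arg_ofReal_of_nonneg hb]
    exact Real.pi_ne_zero.symm
  rw [map_mul, Complex.cpow_conj _ _ harg, Complex.conj_ofReal, ← Complex.Gamma_conj]
  simp

theorem fe2_conj {N : ℝ} (hN : 0 ≤ N) {F : ℂ → ℂ} (h : W388.FE2 1 N 1 F) :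
    W388.FE2 1 N 1 (fun s => conj (F (conj s))) where
  diff := by
    intro z
    have := (h.diff (conj z)).conj_conj
    rwa [Complex.conj_conj] at this
  fe := by
    obtain ⟨w, hw, hfe⟩ := h.fe
    refine ⟨conj w, by rw [Complex.norm_conj, hw], fun s hs => ?_⟩
    have h1 := congrArg conj (hfe (conj s) (by simpa using hs))
    rw [Complex.conj_conj, map_mul, ← GG_conj N hN, Complex.conj_conj, map_mul, Complex.conj_conj] at h1
    rw [h1, map_mul (starRingEnd ℂ) (W388.GG 1 N 1 (1 - conj s)), ← GG_conj N hN, map_sub, map_one,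
      Complex.conj_conj, Complex.conj_conj]
  vert := by
    intro a b
    obtain ⟨C, hC⟩ := h.vert a b
    refine ⟨C, fun s h1 h2 h3 => ?_⟩
    have h4 := hC (conj s) (by simpa using h1) (by simpa using h2) (by simpa using h3)
    rw [GG_conj N hN] at h4
    rw [norm_mul, Complex.norm_conj] at h4 ⊢
    exact h4

section one

variable {N : ℕ} [NeZero N] {ψ : DirichletCharacter ℂ N}
  {f : CuspForm (Gamma1 N : Subgroup (GL (Fin 2) ℝ)) 1}

theorem gro_up {F : ℂ → ℂ} (hFE : W388.FE2 1 N 1 F) {K : ℝ} (hFB : ∀ s : ℂ, 3 / 2 ≤ s.re → ‖F s‖ ≤ K) :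
    ∃ A : ℝ, ∀ s : ℂ, 1 / 16 ≤ s.re → 1 ≤ s.im → ‖F s‖ ≤ A * s.im ^ A := by
  have hN1 : (1 : ℝ) ≤ N := by exact_mod_cast Nat.one_le_iff_ne_zero.2 (NeZero.ne N)
  obtain ⟨A, hA⟩ : ∃ A : ℝ, A = 2 + 2 * (max 1 K * N) * ((((1 : ℤ) : ℝ) - 1) / 2 + 6) ^ 2 := ⟨_, rfl⟩
  refine ⟨A, fun s h1 h3 => ?_⟩
  have h5 := Pool.Agent.W820.TW.F_growth (k := 1) (N := N) (Q := 1) (B := max 1 K) le_rfl hN1 le_rfl
    (le_max_left _ _) hFE (fun s hs => (hFB s hs).trans (le_max_right _ _)) (A := A) (le_of_eq hA.symm) s h1 h3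
  rwa [one_mul] at h5

theorem lfn (hf : IsNewform N ψ f) (hs : Split ψ f) {F : ℂ → ℂ}
    (hFE : W388.FE2 1 N 1 F) (hF : IsL (a f) F) : LFn F where
  diff := hF.diff
  low := by
    obtain ⟨c, K, hc, -, h⟩ := Pool.Agent.Y671.GL.rgt_of (frm hf hs) hF (ε := 1) one_pos
    exact ⟨c, hc, fun z hz => (h z (by linarith)).1⟩
  ne := fun z hz h0 => by
    obtain ⟨c, K, hc, -, h⟩ := Pool.Agent.Y671.GL.rgt_of (frm hf hs) hF (ε := z.re - 1) (by linarith)
    have := (h z (by linarith)).1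
    rw [h0, norm_zero] at this
    linarith
  gro := fun A => by
    obtain ⟨c1, K1, -, hK1, h⟩ := Pool.Agent.Y671.GL.rgt_of (frm hf hs) hF (ε := 1 / 2) (by norm_num)
    have hN0 : (0 : ℝ) ≤ N := Nat.cast_nonneg N
    obtain ⟨a, ha⟩ := gro_up hFE (K := K1) fun s hs => (h s (by linarith)).2.1
    obtain ⟨a', ha'⟩ := gro_up (fe2_conj hN0 hFE) (K := K1) fun s hs => by
      rw [Complex.norm_conj]
      exact (h (conj s) (by simp; linarith)).2.1
    have hK : IsCompact (Set.Icc (1 / 4) A ×ℂ Set.Icc (-1) 1) := isCompact_Icc.reProdIm isCompact_Icc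
    obtain ⟨M, hM⟩ := hK.exists_bound_of_continuousOn hF.diff.continuous.continuousOn
    have key : ∀ (b y : ℝ), 1 ≤ y → b * y ^ b ≤ |b| * (1 + y) ^ ⌈|b|⌉₊ := by
      intro b y hy
      have h5 : y ^ b ≤ (1 + y) ^ ⌈|b|⌉₊ := by
        calc y ^ b ≤ y ^ (⌈|b|⌉₊ : ℝ) := by
              apply Real.rpow_le_rpow_of_exponent_le hy
              exact (le_abs_self b).trans (Nat.le_ceil _)
          _ = y ^ ⌈|b|⌉₊ := Real.rpow_natCast _ _
          _ ≤ _ := by gcongr; linarith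
      calc b * y ^ b ≤ |b| * y ^ b := by
            apply mul_le_mul_of_nonneg_right (le_abs_self b)
            positivity
        _ ≤ |b| * (1 + y) ^ ⌈|b|⌉₊ := by gcongr
    refine ⟨|a| + |a'| + |M| + 1, ⌈|a|⌉₊ + ⌈|a'|⌉₊, by positivity, ?_⟩
    intro z h1 h2
    have hy0 := abs_nonneg z.im
    have hP : (1 : ℝ) ≤ (1 + |z.im|) ^ (⌈|a|⌉₊ + ⌈|a'|⌉₊) := one_le_pow₀ (by linarith)
    have hP1 : (1 + |z.im|) ^ ⌈|a|⌉₊ ≤ (1 + |z.im|) ^ (⌈|a|⌉₊ + ⌈|a'|⌉₊) :=
      pow_le_pow_right₀ (by linarith) (Nat.le_add_right _ _)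
    have hP2 : (1 + |z.im|) ^ ⌈|a'|⌉₊ ≤ (1 + |z.im|) ^ (⌈|a|⌉₊ + ⌈|a'|⌉₊) :=
      pow_le_pow_right₀ (by linarith) (Nat.le_add_left _ _)
    have hM0 := abs_nonneg M
    have ha0 := abs_nonneg a
    have ha0' := abs_nonneg a'
    rcases le_or_gt 1 z.im with h3 | h3
    · have h4 := (ha z (by linarith) h3).trans (key a z.im h3)
      have h4' : z.im = |z.im| := (abs_of_pos (by linarith)).symm
      rw [h4'] at h4
      have h5 : |a| * (1 + |z.im|) ^ ⌈|a|⌉₊ ≤ |a| * (1 + |z.im|) ^ (⌈|a|⌉₊ + ⌈|a'|⌉₊) := by gcongr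
      nlinarith
    · rcases le_or_gt z.im (-1) with h4 | h4
      · have h5 := ha' (conj z) (by simp; linarith) (by simp; linarith)
        rw [Complex.norm_conj, Complex.conj_conj] at h5
        have h6 := h5.trans (key a' (conj z).im (by simp; linarith))
        have h7 : (conj z).im = |z.im| := by
          rw [Complex.conj_im, abs_of_neg (by linarith)]
        rw [h7] at h6
        have h8 : |a'| * (1 + |z.im|) ^ ⌈|a'|⌉₊ ≤ |a'| * (1 + |z.im|) ^ (⌈|a|⌉₊ + ⌈|a'|⌉₊) := by gcongr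
        nlinarith
      · have h5 := hM z ⟨⟨h1, h2⟩, ⟨h4.le, h3.le⟩⟩
        have h6 := le_abs_self M
        nlinarith

/-- everything for one form -/
theorem one_all (hf : IsNewform N ψ f) (hs : Split ψ f) : ∃ (c : ℝ) (u v : ℂ) (X X0 F : ℂ → ℂ),
    W388.FE2 1 N 1 F ∧ IsL (a f) F ∧ LData 1 c u X F ∧ v ≠ 0 ∧
      (∀ z : ℂ, (1 / 2 < z.re ∨ z.im ≠ 0) → X z = v * comp N F (1 / 2 + z)) ∧
      (∃ cc : ℕ → ℂ, Pool.Agent.W355.UN.RawL [0, 1] 0 N (a f) cc X0) ∧ (∀ z : ℂ, X z = v / 2 * X0 (1 / 2 + z)) ∧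
      (∃ H : ℂ → ℂ, GG 1 H X F) ∧ (∀ s : ℂ, X s = 0 → |s.re| ≤ 1 / 2) ∧ (∃ z, X z ≠ 0) ∧
      ∀ a : ℝ, a < 1 → ∃ C : ℝ, 0 < C ∧ ∀ d T : ℝ, 0 ≤ d → 2 ≤ T →
      ∀ S : Finset ℂ, (∀ z ∈ S, z ∈ Pool.Agent.Q9.RH.SX X d T) →
        ∑ z ∈ S, (analyticOrderNatAt X z : ℝ) ≤ C * T ^ (1 - a * d) * Real.log T := by
  obtain ⟨F, hFE, hF⟩ := exists_L hf hs
  obtain ⟨c, u, v, X, X0, hD, hv, hX, hraw, hX0⟩ := ldata hf hs hFE hF
  have hfrm := frm hf hs
  have hcg := cg_of hfrm hF hD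
  obtain ⟨h1, h2⟩ := Pool.Agent.Y693.GL.strip_of le_rfl hfrm hF hD
  refine ⟨c, u, v, X, X0, F, hFE, hF, hD, hv, hX, hraw, hX0,
    ⟨_, hcg, goodX_of hfrm hF hcg.cf, topL_of hfrm hF hcg.cf⟩, h1, h2, ?_⟩
  exact fun a ha => Pool.Agent.Q9.RH.off_ld le_rfl hD (lfn hf hs hFE hF) h1
    (fun κ h3 h4 => Pool.Agent.Y24.GL.mol hfrm hF (by linarith) h4.le) ha

end one

/-! ### the family -/

/-- The zeros of `L` in the critical strip with imaginary part in `(0, T]` and at distance at least `δ`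
from the line `Re s = 1/2`. -/
def Off (L : ℂ → ℂ) (δ T : ℝ) : Set ℂ :=
  {s | L s = 0 ∧ 0 < s.re ∧ s.re < 1 ∧ δ ≤ |s.re - 1 / 2| ∧ 0 < s.im ∧ s.im ≤ T}

/-- The number of points of `A`, each counted with its multiplicity as a zero of `L`. -/
noncomputable def num (L : ℂ → ℂ) (A : Set ℂ) : ℕ := ∑ᶠ s ∈ A, analyticOrderNatAt L s

/-- orders of a product of L-functions -/
theorem ord_prod_L {m : ℕ} {c : Fin m → ℝ} {u : Fin m → ℂ} {X F : Fin m → ℂ → ℂ}
    (hD : ∀ i, LData 1 (c i) (u i) (X i) (F i)) (hF : ∀ i, Differentiable ℂ (F i))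
    (hX1 : ∀ i, X i 1 ≠ 0) {z : ℂ} (hz : 0 < z.im) :
    analyticOrderNatAt (fun s => ∏ i, F i s) (1 / 2 + z) = analyticOrderNatAt (fun w => ∏ i, X i w) z := by
  have hXd : ∀ i, Differentiable ℂ (X i) := fun i => (hD i).diff
  have hG1 : ∀ i, F i (1 / 2 + 1) ≠ 0 := by
    intro i h0
    apply hX1 i
    rw [(hD i).eq 1 (Or.inr (by norm_num)), h0, mul_zero]
  have h1 := (Pool.Agent.Q9.RH.order_prod Finset.univ X (fun i _ => hXd i) (fun i _ => hX1 i) z).1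
  have h2 := (Pool.Agent.Q9.RH.order_prod Finset.univ (fun i w => F i (1 / 2 + w))
    (fun i _ => (hF i).comp (by fun_prop)) (fun i _ => hG1 i) z).1
  have h3 : ∀ i, analyticOrderNatAt (fun w => F i (1 / 2 + w)) z = analyticOrderNatAt (X i) z := by
    intro i
    rw [Pool.Agent.Y771.NF.ord_L le_rfl (hD i) (hF i) hz]
    unfold analyticOrderNatAt
    congr 1
    exact analyticOrderAt_comp_of_deriv_ne_zero (f := F i) (g := fun w : ℂ => 1 / 2 + w) (by fun_prop) (by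
      rw [deriv_const_add]
      simp)
  have h4 : analyticOrderNatAt (fun w => ∏ i, F i (1 / 2 + w)) z =
      analyticOrderNatAt (fun s => ∏ i, F i s) (1 / 2 + z) := by
    unfold analyticOrderNatAt
    congr 1
    exact analyticOrderAt_comp_of_deriv_ne_zero (f := fun s => ∏ i, F i s) (g := fun w : ℂ => 1 / 2 + w)
      (by fun_prop) (by
      rw [deriv_const_add]
      simp)
  rw [h1, ← h4, h2]
  exact Finset.sum_congr rfl fun i _ => h3 i

section fam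

variable {m : ℕ} {N : Fin m → ℕ} [∀ i, NeZero (N i)] {ψ : (i : Fin m) → DirichletCharacter ℂ (N i)}
  {f : (i : Fin m) → CuspForm (Gamma1 (N i) : Subgroup (GL (Fin 2) ℝ)) 1}
variable {K : Type} [Field K] [NumberField K] [IsGalois ℚ K] {V : Type} [AddCommGroup V] [Module ℂ V]
  [FiniteDimensional ℂ V] {ρ : Representation ℂ (K ≃ₐ[ℚ] K) V}

/-- **the density theorem** -/
theorem zero_density (hf : ∀ i, IsNewform (N i) (ψ i) (f i)) (hρ : Attached ψ f ρ) : ∃ L : ℂ → ℂ, IsArtinL ρ L ∧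
    ∀ c : ℝ, c < 1 → ∃ C : ℝ, 0 < C ∧ ∀ δ T : ℝ, 0 ≤ δ → 2 ≤ T →
      (Off L δ T).Finite ∧ (num L (Off L δ T) : ℝ) ≤ C * T ^ (1 - c * δ) * Real.log T := by
  classical
  have hall := fun i => one_all (hf i) (split_of hρ i)
  choose c u v X X0 F hFE hF hD hv hX hraw hX0 hG hst hne hoff using hall
  refine ⟨fun s => ∏ i, F i s, artinL_of hf hρ hF, fun a ha => ?_⟩
  have hXd : ∀ i, Differentiable ℂ (X i) := fun i => (hD i).diff
  have hX1 : ∀ i, X i 1 ≠ 0 := by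
    intro i h0
    have := hst i 1 h0
    norm_num at this
  obtain ⟨C, hC, h⟩ := Pool.Agent.Q9.RH.off_prod X hXd hst fun i => hoff i a ha
  obtain ⟨P, hP⟩ : ∃ P : ℂ → ℂ, P = fun w => ∏ i, X i w := ⟨_, rfl⟩
  have hPd : Differentiable ℂ P := by
    rw [hP]
    exact Differentiable.fun_finsetProd (𝕜 := ℂ) (u := Finset.univ) (f := X) fun i _ => hXd i
  have hPst : ∀ s : ℂ, P s = 0 → |s.re| ≤ 1 / 2 := by
    intro s hs
    rw [hP] at hs
    obtain ⟨i, -, hi⟩ := Finset.prod_eq_zero_iff.1 hs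
    exact hst i s hi
  rw [← hP] at h
  have hzero : ∀ z : ℂ, 0 < z.im → (∏ i, F i (1 / 2 + z) = 0 ↔ P z = 0) := by
    intro z hz
    have h1 : P z = (∏ i, u i * Hg (c i) (((1 : ℕ) : ℝ) / 2) z) * ∏ i, F i (1 / 2 + z) := by
      rw [hP, ← Finset.prod_mul_distrib]
      exact Finset.prod_congr rfl fun i _ => (hD i).eq z (Or.inl hz)
    rw [h1, mul_eq_zero]
    refine ⟨fun h => Or.inr h, fun h => h.resolve_left ?_⟩
    refine Finset.prod_ne_zero_iff.2 fun i _ => ?_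
    refine mul_ne_zero (hD i).u_ne (mul_ne_zero ?_ ?_)
    · rw [Ne, Complex.cpow_eq_zero_iff]
      intro h
      have := (hD i).c_pos.ne'
      exact this (by exact_mod_cast h.1)
    · apply Complex.Gamma_ne_zero
      intro m hm
      have := congrArg Complex.im hm
      simp at this
      linarith
  have hord : ∀ s : ℂ, 0 < s.im → analyticOrderNatAt (fun s => ∏ i, F i s) s = analyticOrderNatAt P (s - 1 / 2) := by
    intro s hs
    have h1 := ord_prod_L hD (fun i => (hF i).diff) hX1 (z := s - 1 / 2) (by simpa using hs)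
    rw [add_sub_cancel] at h1
    rw [h1, hP]
  refine ⟨C, hC, fun δ T hδ hT => ?_⟩
  have hsub : ∀ s ∈ Off (fun s => ∏ i, F i s) δ T, s - 1 / 2 ∈ Pool.Agent.Q9.RH.SX P δ T := by
    rintro s ⟨h1, h2, h3, h4, h5, h6⟩
    have him : (s - 1 / 2 : ℂ).im = s.im := by simp
    have hre : (s - 1 / 2 : ℂ).re = s.re - 1 / 2 := by simp
    refine ⟨(hzero (s - 1 / 2) (by rw [him]; exact h5)).1 (by rw [add_sub_cancel]; exact h1), ?_, ?_, ?_⟩
    · rw [hre]; exact h4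
    · rw [him]; exact h5
    · rw [him]; exact h6
  have hinj : Function.Injective (fun s : ℂ => s - 1 / 2) := sub_left_injective
  have hfin : (Off (fun s => ∏ i, F i s) δ T).Finite := by
    refine Set.Finite.of_finite_image (f := fun s : ℂ => s - 1 / 2) ?_ hinj.injOn
    refine (Pool.Agent.Q9.RH.SX_fin hPd hPst δ T).subset ?_
    rintro _ ⟨s, hs, rfl⟩
    exact hsub s hs
  refine ⟨hfin, ?_⟩
  unfold num
  rw [finsum_mem_eq_finite_toFinset_sum _ hfin]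
  push_cast
  have h1 := h δ T hδ hT (hfin.toFinset.image fun s => s - 1 / 2) (by
    intro z hz
    obtain ⟨s, hs, rfl⟩ := Finset.mem_image.1 hz
    exact hsub s (hfin.mem_toFinset.1 hs))
  rw [Finset.sum_image hinj.injOn] at h1
  refine (le_of_eq ?_).trans h1
  refine Finset.sum_congr rfl fun s hs => ?_
  rw [hord s (hfin.mem_toFinset.1 hs).2.2.2.2.1]

end fam

end Pool.Agent.Q28.AR
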