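import Pool.Agent.Q9.RH.HtK
import Pool.Agent.Y693.GL.Asm

/-!
# Counting the exceptional zeros of derivatives, for products of any number of factors

Adapted from the starting modules `Pool.Agent.Y671.GL.Cnt` and `Pool.Agent.Y671.GL.Shift`.
-/

set_option autoImplicit false

namespace Pool.Agent.Q28.AR

open Complex Filter Topology Set
open scoped ComplexConjugate
open Pool.Agent.Y671.GL
open Pool.Agent.Y693.GL (GY ddy)
open Pool.Agent.W169.HF (heat Slow)
open Pool.Agent.Y671.LD (bad badH order_const_mul iter_diff)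

section der

variable {κ : ℝ} {H X Z : ℂ → ℂ}

/-- **Counting, derivatives.** -/
theorem countDY (hκ : 1 / 2 ≤ κ) (hG : GY κ H X Z) (hA : AppX X) (hL : LowX X) :
    ∃ c C : ℝ, 0 < c ∧ 0 < C ∧
      (∀ (n : ℕ) (T : ℝ), (nu (iteratedDeriv n X) (ED X 0 n T) : ℝ) ≤
        C * Real.exp (-(c * n)) * nu (iteratedDeriv n X) (ZD X n T)) ∧
      (∀ (n : ℕ) (T : ℝ), 2 ≤ T → (nu (iteratedDeriv n X) (ED X 0 n T) : ℝ) ≤
        C * Real.exp (-(c * n)) * T * Real.log T) := by
  have hfinZ := ZD_fin hκ hG.cg hA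
  have hsub : ∀ n T, ED X 0 n T ⊆ ZD X n T := fun n T s h => h.1
  obtain ⟨c, C, hc, hC, hfin⟩ := ddy Pool.Agent.Y412.GL.HSZ.hsz κ H X Z hκ hG hA hL
  obtain ⟨K, hK, N1, hlow⟩ := hL
  have hK1 : 1 ≤ K + 1 := by linarith
  obtain ⟨c2, T0, hc2, hT0, htot⟩ := Pool.Agent.Y423.GL.totd κ H X Z hκ hG.cg hA (K + 1) hK1
  obtain ⟨N2, hN2⟩ : ∃ N2 : ℕ, ∀ n : ℕ, N2 ≤ n → T0 ≤ Real.exp (n / K) := by
    have h1 : Tendsto (fun n : ℕ => Real.exp ((n : ℝ) / K)) atTop atTop :=
      Real.tendsto_exp_atTop.comp (tendsto_natCast_atTop_atTop.atTop_div_const hK)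
    obtain ⟨N', h⟩ := (h1.eventually_ge_atTop T0).exists_forall_of_atTop
    exact ⟨N', h⟩
  have hexc : ∀ (n : ℕ) (T : ℝ), 2 ≤ T → (nu (iteratedDeriv n X) (ED X 0 n T) : ℝ) ≤
      C * T * Real.log T * Real.exp (-(c * n)) := by
    intro n T hT
    refine nu_le ((hfinZ n T).subset (hsub n T)) fun S hS => hfin n T hT S fun s hs => ?_
    obtain ⟨⟨h1, h2, h3⟩, h4⟩ := hS s hs
    exact ⟨⟨h1, h4⟩, h2, h3⟩
  refine ⟨c, C + C / c2 + Real.exp (c * (max N1 N2 : ℕ)), hc, by positivity, ?_, ?_⟩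
  · intro n T
    have hE := Real.exp_pos (-(c * n))
    have hZ0 : (0 : ℝ) ≤ nu (iteratedDeriv n X) (ZD X n T) := Nat.cast_nonneg _
    rcases lt_or_ge n (max N1 N2) with hn | hn
    · have h4 : 1 ≤ Real.exp (c * (max N1 N2 : ℕ)) * Real.exp (-(c * n)) := by
        rw [← Real.exp_add]
        apply Real.one_le_exp
        have : (n : ℝ) ≤ (max N1 N2 : ℕ) := by exact_mod_cast hn.le
        nlinarith
      calc (nu (iteratedDeriv n X) (ED X 0 n T) : ℝ) ≤ nu (iteratedDeriv n X) (ZD X n T) :=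
            nu_mono (hfinZ n T) (hsub n T)
        _ = 1 * nu (iteratedDeriv n X) (ZD X n T) := by ring
        _ ≤ (Real.exp (c * (max N1 N2 : ℕ)) * Real.exp (-(c * n))) * nu (iteratedDeriv n X) (ZD X n T) := by
          gcongr
        _ ≤ _ := by
          have : 0 ≤ (C + C / c2) * Real.exp (-(c * n)) * nu (iteratedDeriv n X) (ZD X n T) := by positivity
          linarith
    · rcases le_or_gt T (Real.exp (n / K)) with hT | hT
      · have h5 : ED X 0 n T = ∅ := by
          rw [Set.eq_empty_iff_forall_notMem]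
          rintro s ⟨⟨h6, h7, h8⟩, h9⟩
          refine hlow n ((le_max_left _ _).trans hn) s ?_ ⟨h6, h9⟩
          rw [abs_of_pos h7]
          exact h8.trans hT
        rw [h5]
        have h6 : (nu (iteratedDeriv n X) ∅ : ℝ) = 0 := by
          unfold nu
          simp
        rw [h6]
        positivity
      · have h5 := hN2 n ((le_max_right _ _).trans hn)
        have hT1 : T0 ≤ T := by linarith
        have hT3 : 2 ≤ T := by linarith
        have hl : (n : ℝ) / K < Real.log T := by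
          rw [Real.lt_log_iff_exp_lt (by linarith)]
          exact hT
        have hl0 : 0 < Real.log T := Real.log_pos (by linarith)
        have h6 : (n : ℝ) ≤ (K + 1) * Real.log T := by
          rw [div_lt_iff₀ hK] at hl
          nlinarith
        obtain ⟨S, hS, h7⟩ := htot n T hT1 h6
        have h7' : c2 * T * Real.log T ≤ nu (iteratedDeriv n X) (ZD X n T) :=
          h7.trans (le_nu (hfinZ n T) S hS)
        have h8 := hexc n T hT3
        have h9 : C * T * Real.log T * Real.exp (-(c * n)) ≤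
            C / c2 * Real.exp (-(c * n)) * nu (iteratedDeriv n X) (ZD X n T) := by
          calc C * T * Real.log T * Real.exp (-(c * n)) =
              C / c2 * Real.exp (-(c * n)) * (c2 * T * Real.log T) := by field_simp
            _ ≤ _ := by gcongr
        have h10 : 0 ≤ (C + Real.exp (c * (max N1 N2 : ℕ))) * Real.exp (-(c * n)) *
            nu (iteratedDeriv n X) (ZD X n T) := by
          positivity
        linarith
  · intro n T hT
    have hE := Real.exp_pos (-(c * n))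
    have hl0 : 0 < Real.log T := Real.log_pos (by linarith)
    have h8 := hexc n T hT
    have h9 : 0 ≤ (C / c2 + Real.exp (c * (max N1 N2 : ℕ))) * Real.exp (-(c * n)) * T * Real.log T := by
      positivity
    linarith

end der

/-- **Derivatives**, in terms of `Λ`. -/
theorem countDY_shift {Λ : ℂ → ℂ} {u : ℂ} {a κ : ℝ} {H Z : ℂ → ℂ} (hκ : 1 / 2 ≤ κ) (hu : u ≠ 0)
    (hG : GY κ H (fun z => u * Λ ((a : ℂ) + z)) Z) (hA : AppX (fun z => u * Λ ((a : ℂ) + z)))
    (hL : LowX (fun z => u * Λ ((a : ℂ) + z))) :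
    (∀ (n : ℕ) (T : ℝ), (ZD Λ n T).Finite) ∧ ∃ c C : ℝ, 0 < c ∧ 0 < C ∧
      (∀ (n : ℕ) (T : ℝ), (nu (iteratedDeriv n Λ) (ED Λ a n T) : ℝ) ≤
        C * Real.exp (-(c * n)) * nu (iteratedDeriv n Λ) (ZD Λ n T)) ∧
      (∀ (n : ℕ) (T : ℝ), 2 ≤ T → (nu (iteratedDeriv n Λ) (ED Λ a n T) : ℝ) ≤
        C * Real.exp (-(c * n)) * T * Real.log T) := by
  have hΛ : Differentiable ℂ Λ := by
    have h1 : Differentiable ℂ (fun s => u⁻¹ * (fun z => u * Λ ((a : ℂ) + z)) (s - a)) :=
      (hG.cg.cf.diff.comp (by fun_prop)).const_mul _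
    have h2 : (fun s => u⁻¹ * (fun z => u * Λ ((a : ℂ) + z)) (s - a)) = Λ := by
      funext s
      simp only [add_sub_cancel]
      rw [inv_mul_cancel_left₀ hu]
    rwa [h2] at h1
  have hfin := fun (n : ℕ) (T : ℝ) => ZD_fin hκ hG.cg hA n T
  obtain ⟨c, C, hc, hC, h1, h2⟩ := countDY hκ hG hA hL
  have e0 : ∀ n : ℕ, iteratedDeriv n (fun z => u * Λ ((a : ℂ) + z)) =
      fun z => u * iteratedDeriv n Λ ((a : ℂ) + z) := fun n => funext fun z => iter_shift' u a Λ n z
  have e1 : ∀ (n : ℕ) (T : ℝ), nu (iteratedDeriv n (fun z => u * Λ ((a : ℂ) + z)))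
      (ZD (fun z => u * Λ ((a : ℂ) + z)) n T) = nu (iteratedDeriv n Λ) (ZD Λ n T) := by
    intro n T
    rw [e0, nu_shift (iter_diff hΛ n) hu a (hfin n T), ZD_image hu]
  have e2 : ∀ (n : ℕ) (T : ℝ), nu (iteratedDeriv n (fun z => u * Λ ((a : ℂ) + z)))
      (ED (fun z => u * Λ ((a : ℂ) + z)) 0 n T) = nu (iteratedDeriv n Λ) (ED Λ a n T) := by
    intro n T
    rw [e0, nu_shift (iter_diff hΛ n) hu a ((hfin n T).subset fun s h => h.1), ED_image hu]
  refine ⟨fun n T => ?_, c, C, hc, hC, fun n T => ?_, fun n T hT => ?_⟩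
  · rw [← ZD_image (a := a) hu]
    exact (hfin n T).image _
  · rw [← e1, ← e2]
    exact h1 n T
  · rw [← e2]
    exact h2 n T hT

end Pool.Agent.Q28.AR
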