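import Pool.Agent.Q28.AR.Dens
import Pool.Agent.Q9.RH.HtK
import Pool.Agent.Y693.GL.Asm

/-!
# Products of L-functions of newforms of weight one: all analytic properties
-/

set_option autoImplicit false

namespace Pool.Agent.Q28.AR

open UpperHalfPlane hiding I
open MatrixGroups CongruenceSubgroup Filter Topology Complex
open Pool.Agent.Y671.GL
open Pool.Agent.W355.UN (Pk pk_raw pk_list cser acond RawL)
open Pool.Agent.TH839.UH (Flow lD flow_of)
open Pool.Agent.W169.HF (heat)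
open Pool.Agent.Y693.GL (GY gy_one gy_prod low_of huge_of heat_tr)
open scoped ComplexConjugate NumberField

theorem base_cpow {N : ℕ} (hN : 1 ≤ N) (s : ℂ) : ((Real.sqrt N / (2 * Real.pi) : ℝ) : ℂ) ^ s =
    (N : ℂ) ^ (s / 2) * (2 * (Real.pi : ℂ)) ^ (-s) := by
  have hN0 : (0 : ℝ) < N := by exact_mod_cast hN
  have hsN : 0 < Real.sqrt N := Real.sqrt_pos.2 hN0
  have hpi := Real.pi_pos
  have h2pi0 : (0 : ℝ) < 2 * Real.pi := by positivity
  have h1 : ((Real.sqrt N / (2 * Real.pi) : ℝ) : ℂ) = ((Real.sqrt N : ℝ) : ℂ) * (((2 * Real.pi)⁻¹ : ℝ) : ℂ) := by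
    rw [div_eq_mul_inv, Complex.ofReal_mul]
  have h2 : (2 * (Real.pi : ℂ)) = ((2 * Real.pi : ℝ) : ℂ) := by push_cast; rfl
  have h3 : ((Real.sqrt N : ℝ) : ℂ) ^ s = (N : ℂ) ^ (s / 2) := by
    have h4 : (N : ℂ) = ((Real.sqrt N : ℝ) : ℂ) * ((Real.sqrt N : ℝ) : ℂ) := by
      rw [← Complex.ofReal_mul, Real.mul_self_sqrt hN0.le]
      simp
    have h5 : ((Real.sqrt N : ℝ) : ℂ) ≠ 0 := by exact_mod_cast hsN.ne'
    rw [h4, Complex.mul_cpow_ofReal_nonneg (Real.sqrt_nonneg _) (Real.sqrt_nonneg _), ← Complex.cpow_add _ _ h5]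
    congr 1
    ring
  have h6 : ((((2 * Real.pi)⁻¹ : ℝ)) : ℂ) ^ s = ((2 * Real.pi : ℝ) : ℂ) ^ (-s) := by
    rw [Complex.cpow_neg]
    refine eq_inv_of_mul_eq_one_left ?_
    rw [← Complex.mul_cpow_ofReal_nonneg (by positivity) h2pi0.le, ← Complex.ofReal_mul, inv_mul_cancel₀ h2pi0.ne',
      Complex.ofReal_one, Complex.one_cpow]
  rw [h1, Complex.mul_cpow_ofReal_nonneg hsN.le (by positivity), h3, h6, h2]

theorem prod_cpow {m : ℕ} (N : Fin m → ℕ) (s : ℂ) : ∏ i, (N i : ℂ) ^ s = ((∏ i, N i : ℕ) : ℂ) ^ s := by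
  classical
  have h : ∀ S : Finset (Fin m), ∏ i ∈ S, (N i : ℂ) ^ s = ((∏ i ∈ S, N i : ℕ) : ℂ) ^ s := by
    intro S
    induction S using Finset.induction_on with
    | empty => simp
    | insert a S ha ih =>
      rw [Finset.prod_insert ha, Finset.prod_insert ha, ih, Nat.cast_mul, Complex.natCast_mul_natCast_cpow]
  exact h Finset.univ

/-- comparison of conductors -/
theorem cond_cmp {m : ℕ} (hm : 1 ≤ m) {N : Fin m → ℕ} (hN : ∀ i, 1 ≤ N i) (y : ℝ) :
    1 ≤ lD m ((∏ i, N i : ℕ) : ℝ) y ∧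
    lD m ((∏ i, N i : ℕ) : ℝ) y ≤ ((2 * m : ℕ) : ℝ) + Real.log (∏ i, acond (N i) [0, 1] y) ∧
    ((2 * m : ℕ) : ℝ) + Real.log (∏ i, acond (N i) [0, 1] y) ≤ 4 * lD m ((∏ i, N i : ℕ) : ℝ) y := by
  have hm1 : (1 : ℝ) ≤ m := by exact_mod_cast hm
  have hA1 : (1 : ℝ) ≤ ((∏ i, N i : ℕ) : ℝ) := by
    exact_mod_cast Finset.one_le_prod' fun i _ => hN i
  have hA0 : (0 : ℝ) < ((∏ i, N i : ℕ) : ℝ) := by linarith
  have hy := abs_nonneg y
  obtain ⟨lA, hlA⟩ : ∃ lA : ℝ, lA = Real.log ((∏ i, N i : ℕ) : ℝ) := ⟨_, rfl⟩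
  have hlA0 : 0 ≤ lA := by rw [hlA]; exact Real.log_nonneg hA1
  obtain ⟨ly, hly⟩ : ∃ ly : ℝ, ly = Real.log (1 + |y|) := ⟨_, rfl⟩
  have hly0 : 0 ≤ ly := by rw [hly]; exact Real.log_nonneg (by linarith)
  have e1 : lD m ((∏ i, N i : ℕ) : ℝ) y = m + (lA + 2 * m * ly) := by
    unfold lD
    rw [Real.log_mul hA0.ne' (by positivity), Real.log_pow, ← hlA, ← hly]
    push_cast
    ring
  obtain ⟨l1, hl1⟩ : ∃ l1 : ℝ, l1 = Real.log (1 + ‖(y : ℂ) * I + 1‖) := ⟨_, rfl⟩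
  have hn0 : ‖(y : ℂ) * I‖ = |y| := by simp
  have hn1 : |y| ≤ ‖(y : ℂ) * I + 1‖ := by
    have := Complex.abs_im_le_norm ((y : ℂ) * I + 1)
    simpa using this
  have hn2 : ‖(y : ℂ) * I + 1‖ ≤ |y| + 1 := by
    refine (norm_add_le _ _).trans ?_
    rw [hn0, norm_one]
  have hl1a : ly ≤ l1 := by
    rw [hly, hl1]
    exact Real.log_le_log (by linarith) (by linarith)
  have hl1b : l1 ≤ ly + 1 := by
    have h1 : 1 + ‖(y : ℂ) * I + 1‖ ≤ (1 + |y|) * 2 := by linarith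
    have h2 := Real.log_le_log (by positivity) h1
    rw [Real.log_mul (by positivity) (by norm_num)] at h2
    have h3 : Real.log 2 ≤ 1 := by
      have := Real.log_two_lt_d9
      linarith
    rw [hly, hl1]
    linarith
  have e2 : Real.log (∏ i, acond (N i) [0, 1] y) = lA + m * (ly + l1) := by
    have h1 : ∀ i, acond (N i) [0, 1] y = (N i : ℝ) * ((1 + |y|) * (1 + ‖(y : ℂ) * I + 1‖)) := by
      intro i
      unfold acond
      simp only [List.map_cons, List.map_nil, List.prod_cons, List.prod_nil, mul_one, add_zero, hn0]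
    simp_rw [h1]
    rw [Finset.prod_mul_distrib, Finset.prod_const, Finset.card_univ, Fintype.card_fin, ← Nat.cast_prod,
      Real.log_mul hA0.ne' (by positivity), Real.log_pow, Real.log_mul (by positivity) (by positivity), ← hlA,
      ← hly, ← hl1]
  rw [e1, e2]
  push_cast
  refine ⟨by nlinarith [mul_nonneg (by linarith : (0 : ℝ) ≤ m) hly0], by nlinarith, by nlinarith⟩

section fam

variable {m : ℕ} {N : Fin m → ℕ} [∀ i, NeZero (N i)] {ψ : (i : Fin m) → DirichletCharacter ℂ (N i)}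
  {f : (i : Fin m) → CuspForm (Gamma1 (N i) : Subgroup (GL (Fin 2) ℝ)) 1}
variable {K : Type} [Field K] [NumberField K] [IsGalois ℚ K] {V : Type} [AddCommGroup V] [Module ℂ V]
  [FiniteDimensional ℂ V] {ρ : Representation ℂ (K ≃ₐ[ℚ] K) V}

/-- all properties of the completed Artin L-function -/
structure Core (m : ℕ) (A : ℝ) (Λ H X Z : ℂ → ℂ) (v : ℂ) : Prop where
  diff : Differentiable ℂ Λ
  fe : ∃ w : ℂ, ‖w‖ = 1 ∧ ∀ s : ℂ, Λ (1 - s) = w * conj (Λ (conj s))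
  gg : GG (m : ℝ) H X Z
  gy : GY (m : ℝ) H X Z
  strip : ∀ s : ℂ, X s = 0 → |s.re| ≤ 1 / 2
  v_ne : v ≠ 0
  eq : ∀ z : ℂ, X z = v * Λ (1 / 2 + z)
  dens : ∀ a : ℝ, a < 1 → ∃ C : ℝ, 0 < C ∧ ∀ d T : ℝ, 0 ≤ d → 2 ≤ T →
      ∀ S : Finset ℂ, (∀ z ∈ S, z ∈ Pool.Agent.Q9.RH.SX X d T) →
        ∑ z ∈ S, (analyticOrderNatAt X z : ℝ) ≤ C * T ^ (1 - a * d) * Real.log T
  flow : ∃ C : ℝ, 0 < C ∧ Flow C m A (fun s => Λ (s - 1 / 2))

theorem completed_unique {m : ℕ} {N : Fin m → ℕ} {L Λ Λ' : ℂ → ℂ} (h : IsCompleted N L Λ) (h' : IsCompleted N L Λ') :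
    Λ' = Λ :=
  entire_unique h.1 h'.1 fun s hs => by rw [h'.2 s hs, h.2 s hs]

/-- **the core theorem** -/
theorem core (hm : 1 ≤ m) (hf : ∀ i, IsNewform (N i) (ψ i) (f i)) (hρ : Attached ψ f ρ) :
    ∃ (L Λ H X Z : ℂ → ℂ) (v : ℂ), IsArtinL ρ L ∧ IsCompleted N L Λ ∧
      Core m ((∏ i, N i : ℕ) : ℝ) Λ H X Z v := by
  classical
  have hall := fun i => one_all (hf i) (split_of hρ i)
  choose c u v X X0 F hFE hF hD hv hX hraw hX0 hG hst hne hoff using hall
  choose H hGG using hG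
  choose cc hcc using hraw
  have hXd : ∀ i, Differentiable ℂ (X i) := fun i => (hD i).diff
  have hN1 : ∀ i, 1 ≤ N i := fun i => Nat.one_le_iff_ne_zero.2 (NeZero.ne (N i))
  obtain ⟨Λ, hΛ⟩ : ∃ Λ : ℂ → ℂ, Λ = fun s => ∏ i, X0 i s / 2 := ⟨_, rfl⟩
  have hpk := fun i => pk_raw (hcc i)
  have hX0d : ∀ i, Differentiable ℂ (X0 i) := fun i => (hpk i).diff
  have hΛd : Differentiable ℂ Λ := by
    rw [hΛ]
    exact Differentiable.fun_finsetProd (𝕜 := ℂ) (u := Finset.univ) (f := fun i s => X0 i s / 2)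
      fun i _ => (hX0d i).div_const 2
  have hcomp : ∀ (i : Fin m) (s : ℂ), 1 < s.re → X0 i s / 2 = comp (N i) (F i) s := by
    intro i s hs
    have h1 := hX i (s - 1 / 2) (Or.inl (by simp; linarith))
    have h2 := hX0 i (s - 1 / 2)
    have e : (1 / 2 : ℂ) + (s - 1 / 2) = s := by ring
    rw [e] at h1 h2
    rw [h1] at h2
    have h3 : v i * comp (N i) (F i) s = v i * (X0 i s / 2) := by rw [h2]; ring
    exact (mul_left_cancel₀ (hv i) h3).symm
  have huniv : (Finset.univ : Finset (Fin m)).Nonempty := ⟨⟨0, hm⟩, Finset.mem_univ _⟩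
  have hgg := Pool.Agent.Q9.RH.gg_prod (Finset.univ : Finset (Fin m)) huniv H X F fun i _ => hGG i
  have hgy := gy_prod (Finset.univ : Finset (Fin m)) huniv H X F fun i _ => gy_one (hGG i)
  rw [Finset.card_univ, Fintype.card_fin] at hgg hgy
  refine ⟨fun s => ∏ i, F i s, Λ, _, _, _, ∏ i, v i, artinL_of hf hρ hF, ⟨hΛd, fun s hs => ?_⟩,
    hΛd, ?_, hgg, hgy, ?_, Finset.prod_ne_zero_iff.2 fun i _ => hv i, ?_, ?_, ?_⟩
  · rw [hΛ, ← prod_cpow]
    show ∏ i, X0 i s / 2 = _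
    rw [Finset.prod_congr rfl fun i _ => hcomp i s hs]
    have e1 : ((2 * Real.pi : ℂ) ^ (-s) * Complex.Gamma s) ^ m =
        ∏ _i : Fin m, ((2 * Real.pi : ℂ) ^ (-s) * Complex.Gamma s) := by
      rw [Finset.prod_const, Finset.card_univ, Fintype.card_fin]
    rw [e1, ← Finset.prod_mul_distrib, ← Finset.prod_mul_distrib]
    refine Finset.prod_congr rfl fun i _ => ?_
    unfold comp
    rw [base_cpow (hN1 i)]
    ring
  · have hfe := fun i => (hpk i).fe
    choose w hw hfe using hfe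
    refine ⟨∏ i, w i, by rw [norm_prod]; exact Finset.prod_eq_one fun i _ => hw i, fun s => ?_⟩
    rw [hΛ]
    show ∏ i, X0 i (1 - s) / 2 = (∏ i, w i) * conj (∏ i, X0 i (conj s) / 2)
    rw [map_prod, ← Finset.prod_mul_distrib]
    refine Finset.prod_congr rfl fun i _ => ?_
    rw [hfe, map_div₀]
    have : conj (2 : ℂ) = 2 := Complex.conj_ofNat 2
    rw [this]
    ring
  · intro s hs
    obtain ⟨i, -, hi⟩ := Finset.prod_eq_zero_iff.1 hs
    exact hst i s hi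
  · intro z
    rw [hΛ]
    show ∏ i, X i z = (∏ i, v i) * ∏ i, X0 i (1 / 2 + z) / 2
    rw [← Finset.prod_mul_distrib]
    refine Finset.prod_congr rfl fun i _ => ?_
    rw [hX0 i z]
    ring
  · intro a ha
    exact Pool.Agent.Q9.RH.off_prod X hXd hst fun i => hoff i a ha
  · -- the flow
    obtain ⟨C0, hC0, Hm⟩ := Pool.Agent.TH839.UH.main_all (Pool.Agent.W355.UN.Bst_nonneg 1)
    have hl : List.finRange m ≠ [] := by
      intro h0
      have := congrArg List.length h0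
      rw [List.length_finRange] at this
      simp at this
      omega
    obtain ⟨Y, hY⟩ := pk_list (fun _ : Fin m => 2) (fun i => (N i : ℝ)) (fun i => acond (N i) [0, 1])
      (fun i => cser 0 (N i) [0, 1] (a (f i))) (fun i => ⟨X0 i, hpk i⟩) (List.finRange m) hl
    have hYd := hY.diff
    have hYe : Y = fun s => (2 : ℂ) ^ m * Λ s := by
      obtain ⟨μ, L, ul, ec, σ, hσ⟩ := hY
      have hσi := fun i => (hpk i).choose_spec.choose_spec.2.2
      choose τ hτ using hσi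
      refine Pk.uniq (G := fun s => ∏ i, cser 0 (N i) [0, 1] (a (f i)) s) (hΛd.const_mul _) hYd
        ⟨∑ i, |τ i|, fun s hs => ?_⟩ ⟨σ, fun s hs => ?_⟩
      · show (2 : ℂ) ^ m * Λ s = _
        have e1 : (2 : ℂ) ^ m = ∏ _i : Fin m, (2 : ℂ) := by
          rw [Finset.prod_const, Finset.card_univ, Fintype.card_fin]
        rw [hΛ, e1, ← Finset.prod_mul_distrib]
        refine Finset.prod_congr rfl fun i _ => ?_
        rw [mul_div_cancel₀ _ (two_ne_zero)]
        refine hτ i s (le_trans ?_ hs)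
        exact (le_abs_self _).trans
          (Finset.single_le_sum (f := fun i => |τ i|) (fun _ _ => abs_nonneg _) (Finset.mem_univ i))
      · rw [hσ s hs]
        show ((List.finRange m).map fun i => cser 0 (N i) [0, 1] (a (f i)) s).prod = _
        rw [← List.ofFn_eq_map, List.prod_ofFn]
    obtain ⟨μ, L, ul, ec, -⟩ := hY
    have hdeg : ((List.finRange m).map fun _ : Fin m => 2).sum = 2 * m := by
      rw [List.map_const', List.length_finRange, List.sum_replicate, smul_eq_mul, mul_comm]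
    have hcond : ((List.finRange m).map fun i => (N i : ℝ)).prod = ((∏ i, N i : ℕ) : ℝ) := by
      rw [← List.ofFn_eq_map, List.prod_ofFn]
      push_cast
      rfl
    refine ⟨_, ?_, flow_of (C0 := C0) (c := (2 : ℂ) ^ m) hC0 (Hm _ _ _ _ _ _ ul zero_le_one) ul zero_le_one
      (pow_ne_zero _ two_ne_zero) (fun z => ?_) ?_ (fun y => ?_)⟩
    · positivity
    · rw [hYe]
      show (2 : ℂ) ^ m * Λ z = (2 : ℂ) ^ m * Λ (z + 1 / 2 - 1 / 2)
      rw [add_sub_cancel_right]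
    · exact_mod_cast Finset.one_le_prod' fun i _ => hN1 i
    · have h1 := cond_cmp hm hN1 y
      rw [ec y, hdeg]
      have e : ((List.finRange m).map fun i => acond (N i) [0, 1] y).prod = ∏ i, acond (N i) [0, 1] y := by
        rw [← List.ofFn_eq_map, List.prod_ofFn]
      beta_reduce
      rw [e]
      exact h1

end fam

end Pool.Agent.Q28.AR
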