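import Pool.Agent.Q28.AR.Defs

/-!
# The eigenvalues of Frobenius elements
-/

open UpperHalfPlane MatrixGroups CongruenceSubgroup NumberField

namespace Pool.Agent.Q28.AR

/-- Existence of Frobenius elements. -/
theorem exists_frob (K : Type) [Field K] [NumberField K] [IsGalois ℚ K] {p : ℕ} (hp : p.Prime) :
    ∃ (P : Ideal (𝓞 K)) (σ : K ≃ₐ[ℚ] K), IsFrob p P σ := by
  have : Fact p.Prime := ⟨hp⟩
  have hmaxl : (Ideal.span {(p : ℤ)}).IsMaximal :=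
    PrincipalIdealRing.isMaximal_of_irreducible
      (Nat.prime_iff_prime_int.1 hp).irreducible
  obtain ⟨Q, hQmax, hQ⟩ := Ideal.exists_maximal_ideal_liesOver_of_isIntegral (S := 𝓞 K)
    (Ideal.span {(p : ℤ)})
  have hlQ : (p : 𝓞 K) ∈ Q := by
    have h1 : (p : ℤ) ∈ Q.under ℤ := by
      rw [← hQ.over]; exact Ideal.mem_span_singleton_self _
    have := Ideal.mem_comap.1 h1
    simpa using this
  have hQprime : Q.IsPrime := hQmax.isPrime
  have hQ0 : Q ≠ ⊥ := by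
    rintro rfl
    rw [Ideal.mem_bot] at hlQ
    exact hp.ne_zero (by exact_mod_cast hlQ)
  have hfin : Finite (𝓞 K ⧸ Q) := Ideal.finiteQuotientOfFreeOfNeBot Q hQ0
  have hGG := IsGaloisGroup.of_isFractionRing (K ≃ₐ[ℚ] K) ℤ (𝓞 K) ℚ K
  obtain ⟨σ, hσ⟩ := IsArithFrobAt.exists_of_isInvariant ℤ (K ≃ₐ[ℚ] K) Q
  have hcard : Nat.card (ℤ ⧸ Q.under ℤ) = p := by
    rw [← hQ.over, Nat.card_congr (Int.quotientSpanNatEquivZMod p).toEquiv, Nat.card_zmod]
  refine ⟨Q, σ, hQprime, hlQ, fun x y hy => ?_⟩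
  have hy' : y = σ • x := RingOfIntegers.ext hy
  have := hσ x
  rw [hcard] at this
  rw [hy']
  exact this

/-- quadratic polynomials with roots outside the unit disc -/
theorem quad_split {a b : ℂ} (h : ∀ x : ℂ, 1 - a * x + b * x ^ 2 = 0 → 1 ≤ ‖x‖) :
    ∃ α β : ℂ, ‖α‖ ≤ 1 ∧ ‖β‖ ≤ 1 ∧ a = α + β ∧ b = α * β := by
  obtain ⟨d, hd⟩ := IsAlgClosed.exists_pow_nat_eq (a ^ 2 - 4 * b) (n := 2) (by norm_num)
  have key : ∀ α : ℂ, α ^ 2 - a * α + b = 0 → ‖α‖ ≤ 1 := by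
    intro α hα
    rcases eq_or_ne α 0 with h0 | h0
    · rw [h0, norm_zero]; exact zero_le_one
    · have h1 := h α⁻¹ (by field_simp; linear_combination hα)
      rw [norm_inv] at h1
      have h2 : 0 < ‖α‖ := norm_pos_iff.2 h0
      by_contra hc
      push Not at hc
      have h3 : ‖α‖⁻¹ < 1 := inv_lt_one_of_one_lt₀ hc
      linarith
  refine ⟨(a + d) / 2, (a - d) / 2, key _ ?_, key _ ?_, by ring, ?_⟩
  · linear_combination (1 / 4 : ℂ) * hd
  · linear_combination (1 / 4 : ℂ) * hd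
  · linear_combination (1 / 4 : ℂ) * hd

section

variable {K : Type} [Field K] [NumberField K] {V : Type} [AddCommGroup V] [Module ℂ V]
  [FiniteDimensional ℂ V]

/-- an invariant norm -/
theorem exists_norm (ρ : Representation ℂ (K ≃ₐ[ℚ] K) V) :
    ∃ n : V → ℝ, (∀ v, v ≠ 0 → 0 < n v) ∧ (∀ (c : ℂ) (v : V), n (c • v) = ‖c‖ * n v) ∧
      (∀ v w : V, n (v + w) ≤ n v + n w) ∧ ∀ (σ : K ≃ₐ[ℚ] K) (v : V), n (ρ σ v) = n v := by
  classical
  obtain ⟨b⟩ : Nonempty (Module.Basis (Fin (Module.finrank ℂ V)) ℂ V) :=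
    ⟨Module.finBasis ℂ V⟩
  have : Fintype (K ≃ₐ[ℚ] K) := Fintype.ofFinite _
  refine ⟨fun v => ∑ g : K ≃ₐ[ℚ] K, ∑ i, ‖b.repr (ρ g v) i‖, ?_, ?_, ?_, ?_⟩
  · intro v hv
    have h0 : ∀ g : K ≃ₐ[ℚ] K, 0 ≤ ∑ i, ‖b.repr (ρ g v) i‖ := fun g =>
      Finset.sum_nonneg fun i _ => norm_nonneg _
    refine lt_of_lt_of_le ?_ (Finset.single_le_sum (f := fun g : K ≃ₐ[ℚ] K => ∑ i, ‖b.repr (ρ g v) i‖)
      (fun g _ => h0 g) (Finset.mem_univ 1))
    have h1 : ρ 1 v = v := by simp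
    rw [h1]
    obtain ⟨i, hi⟩ : ∃ i, b.repr v i ≠ 0 := by
      by_contra hc
      push Not at hc
      apply hv
      apply b.repr.injective
      ext i
      simpa using hc i
    exact lt_of_lt_of_le (norm_pos_iff.2 hi)
      (Finset.single_le_sum (f := fun i => ‖b.repr v i‖) (fun i _ => norm_nonneg _) (Finset.mem_univ i))
  · intro c v
    simp only [map_smul, Finsupp.smul_apply, smul_eq_mul, norm_mul]
    rw [Finset.mul_sum]
    refine Finset.sum_congr rfl fun g _ => ?_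
    rw [Finset.mul_sum]
  · intro v w
    simp only
    rw [← Finset.sum_add_distrib]
    refine Finset.sum_le_sum fun g _ => ?_
    rw [← Finset.sum_add_distrib]
    refine Finset.sum_le_sum fun i _ => ?_
    rw [map_add, map_add, Finsupp.add_apply]
    exact norm_add_le _ _
  · intro σ v
    simp only
    refine Fintype.sum_equiv (Equiv.mulRight σ) _ _ fun g => ?_
    simp [map_mul]

theorem invProj_le (ρ : Representation ℂ (K ≃ₐ[ℚ] K) V) (P : Ideal (𝓞 K)) {n : V → ℝ}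
    (h1 : ∀ (c : ℂ) (v : V), n (c • v) = ‖c‖ * n v) (h2 : ∀ v w : V, n (v + w) ≤ n v + n w)
    (h3 : ∀ (σ : K ≃ₐ[ℚ] K) (v : V), n (ρ σ v) = n v) (v : V) (hv : 0 ≤ n v) :
    n (invProj ρ P v) ≤ n v := by
  classical
  have hfin : (inertia P : Set (K ≃ₐ[ℚ] K)).Finite := Set.toFinite _
  have e1 : invProj ρ P v = ((inertia P : Set (K ≃ₐ[ℚ] K)).ncard : ℂ)⁻¹ • ∑ τ ∈ hfin.toFinset, ρ τ v := by
    unfold invProj
    rw [finsum_mem_eq_finite_toFinset_sum _ hfin, LinearMap.smul_apply, LinearMap.sum_apply]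
  have hn0 : n 0 = 0 := by
    have := h1 0 0
    simpa using this
  have e2 : n (∑ τ ∈ hfin.toFinset, ρ τ v) ≤ ∑ τ ∈ hfin.toFinset, n (ρ τ v) := by
    have := Finset.le_sum_of_subadditive n hn0.le h2 hfin.toFinset (fun τ => ρ τ v)
    exact this
  have e3 : ∑ τ ∈ hfin.toFinset, n (ρ τ v) = (inertia P : Set (K ≃ₐ[ℚ] K)).ncard * n v := by
    rw [Finset.sum_congr rfl fun τ _ => h3 τ v, Finset.sum_const, nsmul_eq_mul,
      ← Set.ncard_eq_toFinset_card _ hfin]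
  rw [e1, h1, norm_inv, Complex.norm_natCast]
  rcases Nat.eq_zero_or_pos (inertia P : Set (K ≃ₐ[ℚ] K)).ncard with h0 | h0
  · rw [h0]; simpa using hv
  · have h0' : (0 : ℝ) < ((inertia P : Set (K ≃ₐ[ℚ] K)).ncard : ℝ) := by exact_mod_cast h0
    rw [e3] at e2
    calc ((inertia P : Set (K ≃ₐ[ℚ] K)).ncard : ℝ)⁻¹ * n (∑ τ ∈ hfin.toFinset, ρ τ v) ≤
        ((inertia P : Set (K ≃ₐ[ℚ] K)).ncard : ℝ)⁻¹ * ((inertia P : Set (K ≃ₐ[ℚ] K)).ncard * n v) := by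
          gcongr
      _ = n v := by field_simp

/-- zeros of the Euler polynomials -/
theorem euler_root (ρ : Representation ℂ (K ≃ₐ[ℚ] K) V) (P : Ideal (𝓞 K)) (σ : K ≃ₐ[ℚ] K) {x : ℂ}
    (hx : eulerPoly ρ P σ x = 0) : 1 ≤ ‖x‖ := by
  obtain ⟨n, n1, n2, n3, n4⟩ := exists_norm ρ
  unfold eulerPoly at hx
  have h1 : LinearMap.ker (LinearMap.id - x • (ρ σ ∘ₗ invProj ρ P)) ≠ ⊥ := by
    intro h0
    have h2 : IsUnit (LinearMap.det (LinearMap.id - x • (ρ σ ∘ₗ invProj ρ P))) := by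
      rw [← LinearMap.isUnit_iff_isUnit_det, LinearMap.isUnit_iff_ker_eq_bot]
      exact h0
    rw [hx] at h2
    exact not_isUnit_zero h2
  obtain ⟨v, hv, hv0⟩ := Submodule.exists_mem_ne_zero_of_ne_bot h1
  rw [LinearMap.mem_ker] at hv
  have h2 : v = x • (ρ σ (invProj ρ P v)) := by
    have h3 : v - x • (ρ σ (invProj ρ P v)) = 0 := by simpa using hv
    exact sub_eq_zero.1 h3
  have h3 : n v ≤ ‖x‖ * n v := by
    calc n v = n (x • (ρ σ (invProj ρ P v))) := by rw [← h2]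
      _ = ‖x‖ * n (invProj ρ P v) := by rw [n2, n4]
      _ ≤ ‖x‖ * n v := mul_le_mul_of_nonneg_left (invProj_le ρ P n2 n3 n4 v (n1 v hv0).le) (norm_nonneg _)
  have h4 := n1 v hv0
  by_contra hc
  push Not at hc
  nlinarith

/-- **the coefficients at the primes** -/
theorem a_split [IsGalois ℚ K] {m : ℕ} {N : Fin m → ℕ} {ψ : (i : Fin m) → DirichletCharacter ℂ (N i)}
    {f : (i : Fin m) → CuspForm (Gamma1 (N i) : Subgroup (GL (Fin 2) ℝ)) 1}
    {ρ : Representation ℂ (K ≃ₐ[ℚ] K) V} (hρ : Attached ψ f ρ) (i : Fin m) {p : ℕ} (hp : p.Prime) :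
    ∃ α β : ℂ, ‖α‖ ≤ 1 ∧ ‖β‖ ≤ 1 ∧ a (f i) p = α + β ∧ ψ i (p : ZMod (N i)) = α * β := by
  obtain ⟨P, σ, hPσ⟩ := exists_frob K hp
  have h := hρ p hp P σ hPσ
  refine quad_split fun x hx => ?_
  refine euler_root ρ P σ (x := x) ?_
  rw [h x]
  exact Finset.prod_eq_zero (Finset.mem_univ i) hx

end

end Pool.Agent.Q28.AR
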