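import Pool.Agent.Q28.AR.Form
import Pool.Agent.Y671.GL.Cg
import Pool.Agent.Y671.GL.Good
import Pool.Agent.W355.UN.Inst2
import Pool.Agent.W108.TW.Mellin
import Pool.Agent.W388.TC.GoodC
import Pool.Agent.W440.TC.Twist
import Pool.Agent.W820.TW.FE

/-!
# The completed L-functions of newforms of weight one
-/

set_option autoImplicit false

namespace Pool.Agent.Q28.AR

open UpperHalfPlane hiding I
open MatrixGroups CongruenceSubgroup Filter Topology Complex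
open Pool.Agent.Y671.GL
open Pool.Agent.W355.UN (Pk pk_raw nf_raw Eu2 cser)
open Pool.Agent.W355.LJ (IsNF)
open scoped ComplexConjugate

variable {N : ℕ} [NeZero N] {ψ : DirichletCharacter ℂ N}
  {f : CuspForm (Gamma1 N : Subgroup (GL (Fin 2) ℝ)) 1}

omit [NeZero N] in
theorem newfC (hf : IsNewform N ψ f) : ∃ η : ℂ, W388.IsNewfC N 1 ψ f η := by
  obtain ⟨η, hη1, hfr⟩ := hf.fricke
  refine ⟨η, fun γ hγ τ => by rw [zpow_one]; exact hf.neb γ hγ τ, hf.one, hf.mul, fun p j hp => ?_, hf.5, hη1,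
    fun τ τ' τc h1 h2 => by rw [zpow_one]; exact hfr τ τ' τc h1 h2⟩
  have := hf.pow p j hp
  simp only [a] at this
  rw [this]
  simp

omit [NeZero N] in
theorem lamC_eq_a (n : ℕ) : W388.lamC f n = a f n := by
  simp [W388.lamC, a]

theorem exists_L (hf : IsNewform N ψ f) (hs : Split ψ f) :
    ∃ F : ℂ → ℂ, W388.FE2 1 N 1 F ∧ IsL (a f) F := by
  obtain ⟨η, hη⟩ := newfC hf
  have hsum : ∀ (q : ℕ) [NeZero q] (χ : DirichletCharacter ℂ q) (s : ℂ), 1 < s.re →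
      Summable (fun n : ℕ => ‖χ (n : ZMod q) * W388.lamC f n * (n : ℂ) ^ (-s)‖) := by
    intro q _ χ s hs1
    obtain ⟨-, -, -, h4⟩ := Pool.Agent.Y771.GL.mf 1 N _ _ (frm hf hs)
    refine (h4 s.re hs1).1.of_nonneg_of_le (fun n => norm_nonneg _) fun n => ?_
    rw [lamC_eq_a]
    rcases Nat.eq_zero_or_pos n with rfl | hn
    · rw [a_zero]
      simp
    · rw [norm_mul, norm_mul, Complex.norm_natCast_cpow_of_pos hn, neg_re]
      have h6 := χ.norm_le_one (n : ZMod q)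
      have h8 : (0 : ℝ) ≤ (n : ℝ) ^ (-s.re) := by positivity
      have h9 := norm_nonneg (a f n)
      calc ‖χ (n : ZMod q)‖ * ‖a f n‖ * (n : ℝ) ^ (-s.re) ≤ 1 * ‖a f n‖ * (n : ℝ) ^ (-s.re) := by gcongr
        _ = _ := by ring
  obtain ⟨F, hF, hs2⟩ := W388.exists_twistC Pool.Agent.W440.TC.t_twistC Pool.Agent.W108.TW.t_mellin
    (k := 1) le_rfl hη hsum 1 1 DirichletCharacter.isPrimitive_one_level_one (Nat.coprime_one_left N)
  refine ⟨F, by simpa using hF, hF.diff, fun s hs => ?_⟩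
  rw [hs2 s hs]
  refine tsum_congr fun n => ?_
  have h1 : (1 : DirichletCharacter ℂ 1) ((n : ℕ) : ZMod 1) = 1 := by
    apply MulChar.one_apply
    exact isUnit_of_subsingleton _
  rw [h1, one_mul, lamC_eq_a]

/-- the entire completed function -/
theorem raw_a (hf : IsNewform N ψ f) (hs : Split ψ f) : ∃ (c : ℕ → ℂ) (X : ℂ → ℂ),
    Pool.Agent.W355.UN.RawL [0, 1] 0 N (a f) c X := by
  obtain ⟨η, hη1, hfr⟩ := hf.fricke
  have hnf : IsNF N 1 f (η / I) := by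
    refine ⟨hf.one, by rw [norm_div, hη1]; simp, fun τ τ' τ'' h1 h2 => ?_⟩
    rw [pow_one, hfr τ τ' τ'' h1 h2]
    ring
  have e1 : ∀ n : ℕ, (((n : ℝ) ^ (-((((1 : ℕ) : ℝ) - 1) / 2)) : ℝ) : ℂ) = 1 := fun n => by simp
  have hE : Eu2 fun n => (qExpansion 1 f).coeff n *
      ((((n : ℝ) ^ (-((((1 : ℕ) : ℝ) - 1) / 2)) : ℝ)) : ℂ) := by
    simp only [e1, mul_one]
    refine ⟨hf.one, hf.mul, fun p hp => ?_⟩
    obtain ⟨α, β, h1, h2, h3, h4⟩ := hs p hp
    refine ⟨α, β, h1, h2, h3, fun k => ?_⟩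
    rw [← h4]
    exact hf.pow p k hp
  obtain ⟨c, X, h⟩ := nf_raw f le_rfl hnf hE
  simp only [e1, mul_one] at h
  have e2 : (((((((1 : ℕ) : ℝ) - 1) / 2) : ℝ)) : ℂ) = 0 := by simp
  have e3 : (((((((1 : ℕ) : ℝ) + 1) / 2) : ℝ)) : ℂ) = 1 := by norm_num
  rw [e2, e3] at h
  exact ⟨c, X, h⟩

/-- the completed series -/
theorem cser_eq (hf : IsNewform N ψ f) (hs : Split ψ f) {F : ℂ → ℂ} (hF : IsL (a f) F) {s : ℂ} (hs1 : 1 < s.re) :
    cser 0 N [0, 1] (a f) s =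
      2 * (((Real.sqrt N / (2 * Real.pi) : ℝ) : ℂ) ^ s * Complex.Gamma s * F s) := by
  have hN0 : (0 : ℝ) < N := by exact_mod_cast Nat.pos_of_ne_zero (NeZero.ne N)
  have hsN : 0 < Real.sqrt N := Real.sqrt_pos.2 hN0
  have hpi := Real.pi_pos
  have h2pi0 : (0 : ℝ) < 2 * Real.pi := by positivity
  unfold cser
  rw [← ser_eq (frm hf hs) hF hs1]
  simp only [List.map_cons, List.map_nil, List.prod_cons, List.prod_nil, mul_one, pow_zero, one_mul, add_zero]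
  have h0 := Complex.Gammaℝ_mul_Gammaℝ_add_one s
  rw [Complex.Gammaℂ_def] at h0
  rw [h0]
  have e1 : ((Real.sqrt N / (2 * Real.pi) : ℝ) : ℂ) ^ s = ((N : ℝ) : ℂ) ^ (s / 2) * (2 * (Real.pi : ℂ)) ^ (-s) := by
    have h1 : ((Real.sqrt N / (2 * Real.pi) : ℝ) : ℂ) = ((Real.sqrt N : ℝ) : ℂ) * (((2 * Real.pi)⁻¹ : ℝ) : ℂ) := by
      rw [div_eq_mul_inv, Complex.ofReal_mul]
    have h2 : (2 * (Real.pi : ℂ)) = ((2 * Real.pi : ℝ) : ℂ) := by push_cast; rfl
    have h3 : ((Real.sqrt N : ℝ) : ℂ) ^ s = ((N : ℝ) : ℂ) ^ (s / 2) := by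
      have h4 : ((N : ℝ) : ℂ) = ((Real.sqrt N : ℝ) : ℂ) * ((Real.sqrt N : ℝ) : ℂ) := by
        rw [← Complex.ofReal_mul, Real.mul_self_sqrt hN0.le]
      have h5 : ((Real.sqrt N : ℝ) : ℂ) ≠ 0 := by exact_mod_cast hsN.ne'
      rw [h4, Complex.mul_cpow_ofReal_nonneg (Real.sqrt_nonneg _) (Real.sqrt_nonneg _), ← Complex.cpow_add _ _ h5]
      congr 1
      ring
    have h6 : ((((2 * Real.pi)⁻¹ : ℝ)) : ℂ) ^ s = ((2 * Real.pi : ℝ) : ℂ) ^ (-s) := by
      rw [Complex.cpow_neg]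
      refine eq_inv_of_mul_eq_one_left ?_
      rw [← Complex.mul_cpow_ofReal_nonneg (by positivity) h2pi0.le, ← Complex.ofReal_mul, inv_mul_cancel₀ h2pi0.ne',
        Complex.ofReal_one, Complex.one_cpow]
    rw [h1, Complex.mul_cpow_ofReal_nonneg hsN.le (by positivity), h3, h6, h2]
  rw [e1]
  push_cast
  ring

/-- the completed function off the poles of the Gamma factor -/
noncomputable def comp (N : ℕ) (F : ℂ → ℂ) (s : ℂ) : ℂ :=
  ((Real.sqrt N / (2 * Real.pi) : ℝ) : ℂ) ^ s * Complex.Gamma s * F s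

/-- **the data of the completed L-function** -/
theorem ldata (hf : IsNewform N ψ f) (hs : Split ψ f) {F : ℂ → ℂ} (hFE : W388.FE2 1 N 1 F) (hF : IsL (a f) F) :
    ∃ (c : ℝ) (u v : ℂ) (X X0 : ℂ → ℂ), LData 1 c u X F ∧ v ≠ 0 ∧
      (∀ z : ℂ, (1 / 2 < z.re ∨ z.im ≠ 0) → X z = v * comp N F (1 / 2 + z)) ∧
      (∃ cc : ℕ → ℂ, Pool.Agent.W355.UN.RawL [0, 1] 0 N (a f) cc X0) ∧ ∀ z : ℂ, X z = v / 2 * X0 (1 / 2 + z) := by
  have hfrm := frm hf hs
  have hN0 : (0 : ℝ) < N := by exact_mod_cast Nat.pos_of_ne_zero (NeZero.ne N)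
  have hN1 : (1 : ℝ) ≤ N := by exact_mod_cast Nat.one_le_iff_ne_zero.2 (NeZero.ne N)
  have hsN : 0 < Real.sqrt N := Real.sqrt_pos.2 hN0
  have hpi0 := Real.pi_pos
  -- the entire completed function
  obtain ⟨cc, X0, hraw⟩ := raw_a hf hs
  have hpk := pk_raw hraw
  have hd := hpk.diff
  obtain ⟨w', hw', hfe⟩ := hpk.fe
  obtain ⟨μ, L, ul, ec, σ0, hσ0⟩ := hpk
  have hX0 : ∀ s : ℂ, max σ0 2 ≤ s.re → X0 s = 2 * comp N F s := by
    intro s hs'
    rw [hσ0 s ((le_max_left _ _).trans hs')]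
    exact cser_eq hf hs hF (by linarith [(le_max_right σ0 2).trans hs'])
  -- the constant
  obtain ⟨c0, hc0⟩ : ∃ c0 : ℂ, c0 ^ 2 = conj w' := IsAlgClosed.exists_pow_nat_eq _ (by norm_num)
  have hc0n : ‖c0‖ = 1 := by
    have h1 := congrArg norm hc0
    rw [norm_pow, Complex.norm_conj, hw'] at h1
    nlinarith [norm_nonneg c0]
  have hc00 : c0 ≠ 0 := by
    intro h; rw [h, norm_zero] at hc0n; exact zero_ne_one hc0n
  have hc0w : c0 * w' = conj c0 := by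
    apply mul_left_cancel₀ hc00
    have h1 : conj w' * w' = 1 := by
      rw [mul_comm, Complex.mul_conj, Complex.normSq_eq_norm_sq, hw']
      simp
    have h2 : c0 * conj c0 = 1 := by
      rw [Complex.mul_conj, Complex.normSq_eq_norm_sq, hc0n]
      simp
    rw [h2, ← mul_assoc, ← sq, hc0, h1]
  obtain ⟨c, hc⟩ : ∃ c : ℝ, c = Real.sqrt N / (2 * Real.pi) := ⟨_, rfl⟩
  have hcp : 0 < c := by rw [hc]; positivity
  have hcc : (c : ℂ) ≠ 0 := by exact_mod_cast hcp.ne'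
  obtain ⟨X, hX⟩ : ∃ X : ℂ → ℂ, X = fun z => c0 * X0 (1 / 2 + z) := ⟨_, rfl⟩
  have hXd : Differentiable ℂ X := by
    rw [hX]
    exact (hd.comp (differentiable_id.const_add _)).const_mul _
  obtain ⟨u, hu⟩ : ∃ u : ℂ, u = 2 * c0 * (c : ℂ) ^ (1 / 2 : ℂ) := ⟨_, rfl⟩
  have hch : (c : ℂ) ^ (1 / 2 : ℂ) ≠ 0 := by
    rw [Ne, Complex.cpow_eq_zero_iff]
    exact fun h => hcc h.1
  have hu0 : u ≠ 0 := by rw [hu]; exact mul_ne_zero (mul_ne_zero two_ne_zero hc00) hch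
  have hcomp : ∀ z : ℂ, 2 * c0 * comp N F (1 / 2 + z) = u * Hg c (1 / 2) z * F (1 / 2 + z) := by
    intro z
    unfold comp Hg
    rw [hu, ← hc, Complex.cpow_add _ _ hcc]
    have e1 : z + (((1 / 2 : ℝ)) : ℂ) = 1 / 2 + z := by push_cast; ring
    rw [e1]
    ring
  -- large real part
  have hbig : ∀ z : ℂ, max σ0 2 ≤ z.re → X z = u * Hg c (1 / 2) z * F (1 / 2 + z) := by
    intro z hz
    have hre : (1 / 2 + z : ℂ).re = 1 / 2 + z.re := by simp
    have e1 : X z = c0 * X0 (1 / 2 + z) := by rw [hX]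
    rw [e1, hX0 _ (by rw [hre]; linarith), ← hcomp]
    ring
  -- the identity on the slit plane
  obtain ⟨U, hU⟩ : ∃ U : Set ℂ, U = {z : ℂ | 1 / 2 < z.re ∨ z.im ≠ 0} := ⟨_, rfl⟩
  have hUs : U = (fun z : ℂ => z - 1 / 2) ⁻¹' Complex.slitPlane := by
    rw [hU]
    ext z
    rw [Set.mem_preimage, Complex.mem_slitPlane_iff]
    simp only [Set.mem_ofPred_eq, Complex.sub_re, Complex.sub_im]
    norm_num
  have hUo : IsOpen U := by
    rw [hUs]
    exact Complex.isOpen_slitPlane.preimage (by fun_prop)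
  have hUc : IsPreconnected U := by
    have h1 : U = (fun z : ℂ => z + 1 / 2) '' Complex.slitPlane := by
      rw [hUs]
      ext z
      constructor
      · intro h
        exact ⟨z - 1 / 2, h, by ring⟩
      · rintro ⟨y, hy, rfl⟩
        show y + 1 / 2 - 1 / 2 ∈ Complex.slitPlane
        rwa [add_sub_cancel_right]
    rw [h1]
    refine IsPreconnected.image ?_ _ (by fun_prop)
    exact (Complex.starConvex_one_slitPlane.isPathConnected Complex.one_mem_slitPlane).isConnected.isPreconnected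
  have hG : ∀ z : ℂ, (1 / 2 < z.re ∨ z.im ≠ 0) → DifferentiableAt ℂ (Hg c (1 / 2)) z := by
    intro z hz
    unfold Hg
    refine DifferentiableAt.mul ?_ ?_
    · exact DifferentiableAt.const_cpow differentiableAt_id (Or.inl hcc)
    · refine DifferentiableAt.comp z (f := fun z : ℂ => z + ((1 / 2 : ℝ) : ℂ)) (Complex.differentiableAt_Gamma _ ?_) (by fun_prop)
      intro m hm
      rcases hz with hz | hz
      · have := congrArg Complex.re hm
        rw [Complex.add_re, Complex.ofReal_re, Complex.neg_re, Complex.natCast_re] at this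
        have hm0 : (0 : ℝ) ≤ m := Nat.cast_nonneg m
        linarith
      · have := congrArg Complex.im hm
        rw [Complex.add_im, Complex.ofReal_im, Complex.neg_im, Complex.natCast_im, add_zero, neg_zero] at this
        exact hz this
  have hA1 : DifferentiableOn ℂ X U := hXd.differentiableOn
  have hA2 : DifferentiableOn ℂ (fun z : ℂ => u * Hg c (1 / 2) z * F (1 / 2 + z)) U := by
    intro z hz
    rw [hU] at hz
    refine DifferentiableAt.differentiableWithinAt ?_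
    exact ((hG z hz).const_mul u).mul (DifferentiableAt.comp z (f := fun z : ℂ => 1 / 2 + z) (hF.diff _) (by fun_prop))
  obtain ⟨z0, hz0⟩ : ∃ z0 : ℂ, z0 = ((max σ0 2 + 1 : ℝ) : ℂ) := ⟨_, rfl⟩
  have hz0re : z0.re = max σ0 2 + 1 := by rw [hz0, Complex.ofReal_re]
  have hz0U : z0 ∈ U := by
    rw [hU]
    left
    rw [hz0re]
    linarith [le_max_right σ0 2]
  have hev : X =ᶠ[𝓝 z0] fun z : ℂ => u * Hg c (1 / 2) z * F (1 / 2 + z) := by
    have h3 : ∀ᶠ z : ℂ in 𝓝 z0, max σ0 2 < z.re :=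
      (Complex.continuous_re.tendsto _).eventually (lt_mem_nhds (by rw [hz0re]; linarith))
    filter_upwards [h3] with z hz
    exact hbig z hz.le
  have hEq := (hA1.analyticOnNhd hUo).eqOn_of_preconnected_of_eventuallyEq (hA2.analyticOnNhd hUo) hUc hz0U hev
  have heq : ∀ z : ℂ, (1 / 2 < z.re ∨ z.im ≠ 0) → X z = u * Hg c (1 / 2) z * F (1 / 2 + z) := by
    intro z hz
    exact hEq (by rw [hU]; exact hz)
  -- bounds
  obtain ⟨-, -, -, h4⟩ := Pool.Agent.Y771.GL.mf 1 N _ _ hfrm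
  obtain ⟨B0, hB0⟩ : ∃ B0 : ℝ, B0 = ∑' n : ℕ, ‖a f n‖ * (n : ℝ) ^ (-(3 / 2 : ℝ)) := ⟨_, rfl⟩
  have hFB : ∀ s : ℂ, 3 / 2 ≤ s.re → ‖F s‖ ≤ max 1 B0 := by
    intro s hs
    rw [ser_eq hfrm hF (by linarith)]
    refine le_trans ?_ (le_max_right _ _)
    rw [hB0]
    exact (sum_of (h4 (3 / 2) (by norm_num)).1 hs).2
  refine ⟨c, u, 2 * c0, X, X0, ⟨hcp, hu0, hXd, ?_, ?_, ?_, ?_⟩, mul_ne_zero two_ne_zero hc00, ?_, ⟨cc, hraw⟩, ?_⟩
  · -- symmetry
    intro z
    have e1 : X (-(conj z)) = c0 * X0 (1 - (1 / 2 + conj z)) := by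
      rw [hX]
      show c0 * X0 (1 / 2 + -(conj z)) = _
      congr 2
      ring
    have e2 : conj (1 / 2 + conj z) = 1 / 2 + z := by
      rw [map_add, Complex.conj_conj, map_div₀, map_one]
      have : conj (2 : ℂ) = 2 := Complex.conj_ofNat 2
      rw [this]
    rw [e1, hfe, e2, ← mul_assoc, hc0w, ← map_mul]
    rw [hX]
  · intro z hz
    have h1 : ((1 : ℕ) : ℝ) / 2 = 1 / 2 := by norm_num
    rw [h1]
    refine heq z ?_
    rcases hz with hz | hz
    · exact Or.inr hz.ne'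
    · exact Or.inl hz
  · -- vertical strips
    intro a b
    obtain ⟨C1, hC1⟩ := hFE.vert (a + 1 / 2) (b + 1 / 2)
    have hK : IsCompact (Set.Icc a b ×ℂ Set.Icc (-1 : ℝ) 1) := isCompact_Icc.reProdIm isCompact_Icc
    obtain ⟨C2, hC2⟩ := hK.exists_bound_of_continuousOn (f := X) hXd.continuous.continuousOn
    refine ⟨max (‖u‖ * ‖(c : ℂ) ^ (-(1 / 2) : ℂ)‖ * C1) C2, fun z hz1 hz2 => ?_⟩
    rcases le_or_gt 1 |z.im| with h1 | h1
    · refine le_trans ?_ (le_max_left _ _)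
      have him : z.im ≠ 0 := by
        intro h0; rw [h0, abs_zero] at h1; linarith
      rw [heq z (Or.inr him)]
      have h5 := hC1 (1 / 2 + z) (by simp; linarith) (by simp; linarith) (by simpa using h1)
      have h6 : Hg c (1 / 2) z = (c : ℂ) ^ (-(1 / 2) : ℂ) * W388.GG 1 N 1 (1 / 2 + z) := by
        unfold Hg W388.GG
        rw [mul_one, ← hc, ← mul_assoc, ← Complex.cpow_add _ _ hcc]
        congr 1
        · congr 1; ring
        · congr 1
          push_cast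
          ring
      rw [h6]
      calc ‖u * ((c : ℂ) ^ (-(1 / 2) : ℂ) * W388.GG 1 N 1 (1 / 2 + z)) * F (1 / 2 + z)‖
          = ‖u‖ * ‖(c : ℂ) ^ (-(1 / 2) : ℂ)‖ * ‖W388.GG 1 N 1 (1 / 2 + z) * F (1 / 2 + z)‖ := by
            rw [norm_mul, norm_mul, norm_mul, norm_mul]; ring
        _ ≤ _ := by gcongr
    · refine le_trans (hC2 z ?_) (le_max_right _ _)
      rw [Complex.mem_reProdIm]
      have := abs_lt.1 h1
      exact ⟨⟨hz1, hz2⟩, ⟨this.1.le, this.2.le⟩⟩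
  · -- growth
    obtain ⟨A, hA⟩ : ∃ A : ℝ, A = 2 + 2 * (max 1 B0 * N) * ((((1 : ℤ) : ℝ) - 1) / 2 + 6) ^ 2 := ⟨_, rfl⟩
    refine ⟨A, fun s h1 h3 => ?_⟩
    have h5 := Pool.Agent.W820.TW.F_growth (k := 1) (N := N) (Q := 1) (B := max 1 B0) le_rfl hN1 le_rfl
      (le_max_left _ _) hFE hFB (A := A) (le_of_eq hA.symm) s h1 h3
    rwa [one_mul] at h5
  · intro z hz
    rw [heq z hz, ← hcomp]
  · intro z
    rw [hX]
    ring

end Pool.Agent.Q28.AR
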