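import Pool.Agent.Q28.AR.Fam
import Pool.Agent.Q28.AR.Der

/-!
# The theorems in terms of the completed Artin L-function
-/

set_option autoImplicit false

namespace Pool.Agent.Q28.AR

open Complex Filter Topology MeasureTheory Set
open scoped ComplexConjugate
open Pool.Agent.Y671.GL
open Pool.Agent.W169.HF (heat)
open Pool.Agent.Y693.GL (GY low_of huge_of heat_tr)
open Pool.Agent.TH839.UH (Flow)

/-! ### the zeros of `Λ` and the horizontal growth -/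

/-- The zeros of `Λ` with imaginary part in `(0, T]` and distance at least `δ` from the line `Re s = 1/2`. -/
def OffL (Λ : ℂ → ℂ) (δ T : ℝ) : Set ℂ := {s | Λ s = 0 ∧ δ ≤ |s.re - 1 / 2| ∧ 0 < s.im ∧ s.im ≤ T}

/-- The heights `t` in `[0, T]` at which `x ↦ |Λ(1/2 + x + i t)|` is not strictly increasing on `x ≥ h`. -/
def Exceptional (Λ : ℂ → ℂ) (h T : ℝ) : Set ℝ :=
  {t | 0 ≤ t ∧ t ≤ T ∧ ¬ StrictMonoOn (fun x : ℝ => ‖Λ (1 / 2 + x + t * I)‖) (Set.Ici h)}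

section

variable {m : ℕ} {A : ℝ} {Λ H X Z : ℂ → ℂ} {v : ℂ}

theorem Core.half_le (hm : 1 ≤ m) : (1 / 2 : ℝ) ≤ m := by
  have : (1 : ℝ) ≤ m := by exact_mod_cast hm
  linarith

theorem Core.res (hm : 1 ≤ m) (h : Core m A Λ H X Z v) : Pool.Agent.Q9.RH.Res (fun s => Λ (s - 1 / 2)) := by
  refine Pool.Agent.Q9.RH.res_of (Core.half_le hm) h.gg.cg h.strip h.v_ne (fun z => ?_)
    (h.diff.comp (by fun_prop)) h.dens
  rw [h.eq]
  congr 2
  ring

theorem Core.offL (hm : 1 ≤ m) (h : Core m A Λ H X Z v) (δ T : ℝ) : (OffL Λ δ T).Finite ∧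
    num Λ (OffL Λ δ T) = ∑ᶠ s ∈ Pool.Agent.Q9.RH.OffK (fun s => Λ (s - 1 / 2)) δ T,
      analyticOrderNatAt (fun s => Λ (s - 1 / 2)) s := by
  have hR := Core.res hm h
  have himg : OffL Λ δ T = (fun z : ℂ => z - 1 / 2) '' Pool.Agent.Q9.RH.OffK (fun s => Λ (s - 1 / 2)) δ T := by
    ext s
    constructor
    · rintro ⟨h1, h2, h3, h4⟩
      refine ⟨s + 1 / 2, ⟨?_, ?_, ?_, ?_⟩, by simp⟩
      · show Λ (s + 1 / 2 - 1 / 2) = 0
        rw [add_sub_cancel_right]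
        exact h1
      · have : (s + 1 / 2 : ℂ).re - 1 = s.re - 1 / 2 := by simp; ring
        rw [this]
        exact h2
      · simpa using h3
      · simpa using h4
    · rintro ⟨z, ⟨h1, h2, h3, h4⟩, rfl⟩
      refine ⟨h1, ?_, ?_, ?_⟩
      · have : (z - 1 / 2 : ℂ).re - 1 / 2 = z.re - 1 := by simp; ring
        show δ ≤ |(z - 1 / 2 : ℂ).re - 1 / 2|
        rw [this]
        exact h2
      · show 0 < (z - 1 / 2 : ℂ).im
        simpa using h3
      · show (z - 1 / 2 : ℂ).im ≤ T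
        simpa using h4
  refine ⟨by rw [himg]; exact (hR.fin δ T).image _, ?_⟩
  unfold num
  symm
  refine finsum_mem_eq_of_bijOn (fun z : ℂ => z - 1 / 2) ⟨?_, ?_, ?_⟩ fun z _ => ?_
  · intro z hz
    rw [himg]
    exact ⟨z, hz, rfl⟩
  · intro a _ b _ hab
    exact sub_left_injective hab
  · rw [himg]
    exact Set.surjOn_image _ _
  · unfold analyticOrderNatAt
    congr 1
    exact analyticOrderAt_comp_of_deriv_ne_zero (f := Λ) (g := fun w : ℂ => w - 1 / 2) (by fun_prop) (by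
      rw [deriv_sub_const]
      simp)

theorem Core.density (hm : 1 ≤ m) (h : Core m A Λ H X Z v) : ∀ c : ℝ, c < 1 → ∃ C : ℝ, 0 < C ∧ ∀ δ T : ℝ, 0 ≤ δ →
    2 ≤ T → (OffL Λ δ T).Finite ∧ (num Λ (OffL Λ δ T) : ℝ) ≤ C * T ^ (1 - c * δ) * Real.log T := by
  intro c hc
  have hR := Core.res hm h
  obtain ⟨C, hC, h1⟩ := hR.dens c hc
  refine ⟨C, hC, fun δ T hδ hT => ⟨(Core.offL hm h δ T).1, ?_⟩⟩
  rw [(Core.offL hm h δ T).2]
  exact h1 δ T hδ hT

theorem Core.rh (hm : 1 ≤ m) (h : Core m A Λ H X Z v) : (∀ s : ℂ, Λ s = 0 → s.re = 1 / 2) ↔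
    ∀ t : ℝ, StrictMonoOn (fun x : ℝ => ‖Λ (1 / 2 + x + t * I)‖) (Set.Ici 0) := by
  have hR := (Core.res hm h).rh
  have e1 : (∀ s : ℂ, Λ s = 0 → s.re = 1 / 2) ↔ ∀ s : ℂ, (fun s => Λ (s - 1 / 2)) s = 0 → s.re = 1 := by
    constructor
    · intro h1 s hs
      have := h1 (s - 1 / 2) hs
      have e : (s - 1 / 2 : ℂ).re = s.re - 1 / 2 := by simp
      rw [e] at this
      linarith
    · intro h1 s hs
      have := h1 (s + 1 / 2) (by
        show Λ (s + 1 / 2 - 1 / 2) = 0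
        rw [add_sub_cancel_right]
        exact hs)
      have e : (s + 1 / 2 : ℂ).re = s.re + 1 / 2 := by simp
      rw [e] at this
      linarith
  have e2 : ∀ t : ℝ, (fun x : ℝ => ‖(fun s => Λ (s - 1 / 2)) (1 + x + t * I)‖) =
      fun x : ℝ => ‖Λ (1 / 2 + x + t * I)‖ := by
    intro t
    funext x
    show ‖Λ (1 + x + t * I - 1 / 2)‖ = _
    congr 2
    ring
  rw [e1, hR]
  exact forall_congr' fun t => by rw [e2]

theorem Core.grow (hm : 1 ≤ m) (h : Core m A Λ H X Z v) : ∀ c : ℝ, c < 1 → ∃ C : ℝ, 0 < C ∧ ∀ r T : ℝ, 0 ≤ r →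
    2 ≤ T → volume (Exceptional Λ (r / Real.log T) T) ≤ ENNReal.ofReal (C * Real.exp (-(c * r)) * T) := by
  intro c hc
  obtain ⟨C, hC, h1⟩ := (Core.res hm h).grow c hc
  refine ⟨C, hC, fun r T hr hT => ?_⟩
  refine le_trans (le_of_eq ?_) (h1 r T hr hT)
  congr 1
  ext t
  have e2 : (fun x : ℝ => ‖(fun s => Λ (s - 1 / 2)) (1 + x + t * I)‖) =
      fun x : ℝ => ‖Λ (1 / 2 + x + t * I)‖ := by
    funext x
    show ‖Λ (1 + x + t * I - 1 / 2)‖ = _
    congr 2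
    ring
  unfold Exceptional Pool.Agent.Q9.RH.BadL
  simp only [Set.mem_ofPred_eq]
  rw [e2]

/-! ### derivatives and the heat flow -/

theorem Core.heat_zero (hm : 1 ≤ m) (h : Core m A Λ H X Z v) : heat 0 Λ = Λ ∧
    heat 0 (fun s => Λ (s - 1 / 2)) = fun s => Λ (s - 1 / 2) := by
  have hne : ∃ z, X z ≠ 0 := ⟨1, fun h0 => by
    have := h.strip 1 h0
    norm_num at this⟩
  obtain ⟨K, hK, hslow⟩ := h.gg.cg.slow
  have hXs : Pool.Agent.W169.HF.Slow X := slow_of h.gg.cg.cf.diff hK hslow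
  obtain ⟨h6, -⟩ := Pool.Agent.Y275.GL.hht X hXs h.gg.cg.cf.symm hne h.strip
  have h1 : ∀ z : ℂ, heat 0 X z = v * heat 0 Λ (1 / 2 + z) := by
    intro z
    unfold heat
    rw [mul_left_comm, ← MeasureTheory.integral_const_mul v]
    congr 1
    refine MeasureTheory.integral_congr_ae (Filter.Eventually.of_forall fun y => ?_)
    show _ * X _ = v * (_ * Λ _)
    rw [h.eq]
    have e : (1 / 2 + (z + ((2 * Real.sqrt 0 * y : ℝ) : ℂ))) = 1 / 2 + z + ((2 * Real.sqrt 0 * y : ℝ) : ℂ) := by ring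
    rw [e]
    ring
  have h2 : heat 0 Λ = Λ := by
    funext s
    have h3 := h1 (s - 1 / 2)
    rw [h6, h.eq] at h3
    have e : (1 / 2 : ℂ) + (s - 1 / 2) = s := by ring
    rw [e] at h3
    exact (mul_left_cancel₀ h.v_ne h3).symm
  refine ⟨h2, ?_⟩
  funext s
  have h3 : heat 0 (fun s => Λ (s - 1 / 2)) s = heat 0 Λ (s - 1 / 2) := by
    unfold heat
    congr 1
    refine MeasureTheory.integral_congr_ae (Filter.Eventually.of_forall fun y => ?_)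
    show _ * Λ _ = _ * Λ _
    congr 2
    ring
  rw [h3, h2]

theorem Core.app (hm : 1 ≤ m) (h : Core m A Λ H X Z v) : AppX X := by
  have hne : ∃ z, X z ≠ 0 := ⟨1, fun h0 => by
    have := h.strip 1 h0
    norm_num at this⟩
  exact Pool.Agent.Y275.GL.had1 X h.gg.cg.cf.diff h.gg.cg.cf.symm hne h.gg.cg.slow h.strip

theorem Core.low (hm : 1 ≤ m) (hA : 1 ≤ A) (h : Core m A Λ H X Z v) : LowX X := by
  obtain ⟨C, hC, hF⟩ := h.flow
  refine low_of hC hm hA h.v_ne (Λ := fun s => Λ (s - 1 / 2)) (fun z => ?_) (Core.heat_zero hm h).2 hF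
  rw [h.eq]
  congr 2
  ring

theorem Core.huge (hm : 1 ≤ m) (hA : 1 ≤ A) (h : Core m A Λ H X Z v) : HugeX X := by
  obtain ⟨C, hC, hF⟩ := h.flow
  refine huge_of hC hm hA h.v_ne (Λ := fun s => Λ (s - 1 / 2)) (fun z => ?_) hF
  rw [h.eq]
  congr 2
  ring

/-- **zeros of derivatives** -/
theorem Core.der (hm : 1 ≤ m) (hA : 1 ≤ A) (h : Core m A Λ H X Z v) :
    (∀ (n : ℕ) (T : ℝ), (ZD Λ n T).Finite) ∧ ∃ c C : ℝ, 0 < c ∧ 0 < C ∧
      (∀ (n : ℕ) (T : ℝ), (nu (iteratedDeriv n Λ) (ED Λ (1 / 2) n T) : ℝ) ≤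
        C * Real.exp (-(c * n)) * nu (iteratedDeriv n Λ) (ZD Λ n T)) ∧
      (∀ (n : ℕ) (T : ℝ), 2 ≤ T → (nu (iteratedDeriv n Λ) (ED Λ (1 / 2) n T) : ℝ) ≤
        C * Real.exp (-(c * n)) * T * Real.log T) := by
  have hXe : X = fun z => v * Λ (((1 / 2 : ℝ) : ℂ) + z) := by
    funext z
    rw [h.eq]
    congr 3
    push_cast
    rfl
  have h1 := h.gy
  have h2 := Core.app hm h
  have h3 := Core.low hm hA h
  rw [hXe] at h1 h2 h3
  exact countDY_shift (Core.half_le hm) h.v_ne h1 h2 h3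

/-- **zeros of the heat flow** -/
theorem Core.hf (hm : 1 ≤ m) (hm5 : m ≤ 5) (hA : 1 ≤ A) (h : Core m A Λ H X Z v) :
    (∀ t T : ℝ, 0 ≤ t → (ZH Λ t T).Finite) ∧ ∃ c C : ℝ, 0 < c ∧ 0 < C ∧
      ∀ t T : ℝ, 0 < t → t ≤ 1 / 8 → 2 ≤ T →
      (nu (heat t Λ) (EH Λ (1 / 2) t T) : ℝ) ≤ C * Real.exp (-(c * t * Real.log T ^ 2)) * nu (heat t Λ) (ZH Λ t T) ∧
      (nu (heat t Λ) (EH Λ (1 / 2) t T) : ℝ) ≤ C * Real.exp (-(c * t * Real.log T ^ 2)) * T * Real.log T := by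
  have hXe : X = fun z => v * Λ (((1 / 2 : ℝ) : ℂ) + z) := by
    funext z
    rw [h.eq]
    congr 3
    push_cast
    rfl
  have h1 := h.gg
  have h2 := Core.app hm h
  have h3 := Core.huge hm hA h
  have h4 := h.strip
  have h5 : (m : ℝ) ≤ 5 := by exact_mod_cast hm5
  rw [hXe] at h1 h2 h3 h4
  exact countH_shift (Core.half_le hm) h5 h.v_ne h1 h2 h4 h3

end

end Pool.Agent.Q28.AR
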